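import Pool.Agent.Lib.MP_6205a3_nt.Cheb

/-!
# MP_6205a3_nt : the minimum in the definition of `m_n` is attained
-/

open Finset Polynomial Matrix

set_option autoImplicit false

namespace IntCheb

variable {a b : ℝ}

lemma finite_small (hab : a < b) (n : ℕ) (B : ℝ) :
    {P : ℤ[X] | P.natDegree ≤ n ∧ supNorm a b P ≤ B}.Finite := by
  classical
  -- interpolation points
  set x : Fin (n + 1) → ℝ := fun i => a + (b - a) * ((i : ℕ) : ℝ) / (n + 1) with hx
  have hn : (0 : ℝ) < n + 1 := by positivity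
  have hxI : ∀ i, x i ∈ Set.Icc a b := by
    intro i
    have h1 : (0 : ℝ) ≤ (b - a) * ((i : ℕ) : ℝ) / (n + 1) := by
      have : 0 ≤ b - a := by linarith
      positivity
    have h2 : (b - a) * ((i : ℕ) : ℝ) / (n + 1) ≤ b - a := by
      rw [div_le_iff₀ hn]
      have h3 : ((i : ℕ) : ℝ) ≤ n + 1 := by exact_mod_cast i.2.le
      nlinarith
    exact ⟨by simp only [hx]; linarith, by simp only [hx]; linarith⟩
  have hinj : Function.Injective x := by
    intro i j hij
    simp only [hx] at hij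
    have h3 : (b - a) * ((i : ℕ) : ℝ) / (n + 1) = (b - a) * ((j : ℕ) : ℝ) / (n + 1) := by linarith
    rw [div_left_inj' hn.ne'] at h3
    have h4 := mul_left_cancel₀ (by linarith : b - a ≠ 0) h3
    exact Fin.ext (by exact_mod_cast h4)
  have hdet : (vandermonde x).det ≠ 0 := det_vandermonde_ne_zero_iff.2 hinj
  -- inverse matrix
  set V := vandermonde x with hV
  have hVinv : V⁻¹ * V = 1 := Matrix.nonsing_inv_mul _ (isUnit_iff_ne_zero.2 hdet)
  set K : ℝ := ∑ i, ∑ j, |V⁻¹ i j| with hK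
  have hcoeff : ∀ P : ℤ[X], P.natDegree ≤ n → supNorm a b P ≤ B → ∀ i : Fin (n + 1),
      |(P.coeff i : ℝ)| ≤ K * |B| := by
    intro P hP hPB i
    have h1 : ∀ j, aeval (x j) P = (V *ᵥ fun k => (P.coeff k : ℝ)) j := by
      intro j
      rw [aeval_eq_sum_range' (Nat.lt_succ_of_le hP), Matrix.mulVec, dotProduct,
        ← Fin.sum_univ_eq_sum_range (fun k => P.coeff k • x j ^ k)]
      refine Finset.sum_congr rfl fun k _ => ?_
      rw [hV, vandermonde_apply, zsmul_eq_mul, mul_comm]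
    have h2 : (fun k : Fin (n + 1) => (P.coeff k : ℝ)) = V⁻¹ *ᵥ (fun j => aeval (x j) P) := by
      have : (fun j => aeval (x j) P) = V *ᵥ fun k => (P.coeff k : ℝ) := funext h1
      rw [this, Matrix.mulVec_mulVec, hVinv, Matrix.one_mulVec]
    have h3 : (P.coeff i : ℝ) = ∑ j, V⁻¹ i j * aeval (x j) P := congrFun h2 i
    rw [h3]
    calc |∑ j, V⁻¹ i j * aeval (x j) P| ≤ ∑ j, |V⁻¹ i j * aeval (x j) P| :=
          Finset.abs_sum_le_sum_abs _ _
      _ ≤ ∑ j, |V⁻¹ i j| * |B| := by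
          refine Finset.sum_le_sum fun j _ => ?_
          rw [abs_mul]
          refine mul_le_mul_of_nonneg_left ?_ (abs_nonneg _)
          exact (le_supNorm P (hxI j)).trans (hPB.trans (le_abs_self _))
      _ = (∑ j, |V⁻¹ i j|) * |B| := (Finset.sum_mul _ _ _).symm
      _ ≤ K * |B| := by
          refine mul_le_mul_of_nonneg_right ?_ (abs_nonneg _)
          exact Finset.single_le_sum (f := fun i => ∑ j, |V⁻¹ i j|)
            (fun i _ => Finset.sum_nonneg fun j _ => abs_nonneg _) (Finset.mem_univ i)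
  -- finiteness
  set k : ℤ := ⌊K * |B|⌋ with hk
  have hfin : (Set.pi Set.univ fun _ : Fin (n + 1) => Set.Icc (-k) k).Finite :=
    Set.Finite.pi fun _ => Set.finite_Icc _ _
  refine Set.Finite.of_finite_image (f := fun P : ℤ[X] => fun i : Fin (n + 1) => P.coeff i)
    (hfin.subset ?_) ?_
  · rintro _ ⟨P, ⟨hP, hPB⟩, rfl⟩ i _
    have h1 := hcoeff P hP hPB i
    have h2 : |P.coeff i| ≤ k := by
      rw [hk, Int.le_floor]; push_cast; exact h1
    exact abs_le.1 h2
  · rintro P ⟨hP, _⟩ Q ⟨hQ, _⟩ h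
    ext i
    rcases Nat.lt_or_ge i (n + 1) with hi | hi
    · exact congrFun h ⟨i, hi⟩
    · rw [coeff_eq_zero_of_natDegree_lt (by omega), coeff_eq_zero_of_natDegree_lt (by omega)]

/-- `chebMin a b n` is a minimum. -/
theorem isLeast_chebMin (hab : a < b) (n : ℕ) :
    IsLeast {t : ℝ | ∃ P : ℤ[X], P ≠ 0 ∧ P.natDegree ≤ n ∧ supNorm a b P = t} (chebMin a b n) := by
  classical
  have hfin := finite_small hab n (supNorm a b 1)
  set F : Set ℤ[X] := {P : ℤ[X] | P ≠ 0 ∧ (P.natDegree ≤ n ∧ supNorm a b P ≤ supNorm a b 1)} with hF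
  have hFfin : F.Finite := hfin.subset fun P hP => hP.2
  have hFne : F.Nonempty := ⟨1, one_ne_zero, by simp, le_rfl⟩
  obtain ⟨P, hP, hmin⟩ := Set.exists_min_image F (fun P => supNorm a b P) hFfin hFne
  have hle : ∀ Q : ℤ[X], Q ≠ 0 → Q.natDegree ≤ n → supNorm a b P ≤ supNorm a b Q := by
    intro Q hQ hQn
    rcases le_total (supNorm a b Q) (supNorm a b 1) with h | h
    · exact hmin Q ⟨hQ, hQn, h⟩
    · exact hP.2.2.trans h
  have heq : chebMin a b n = supNorm a b P :=
    le_antisymm (chebMin_le hab hP.1 hP.2.1) (le_chebMin a b hle)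
  rw [heq]
  refine ⟨⟨P, hP.1, hP.2.1, rfl⟩, ?_⟩
  rintro _ ⟨Q, hQ, hQn, rfl⟩
  exact hle Q hQ hQn

end IntCheb
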