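import Pool.Agent.Lib.MP_6205a3_nt.Kernel2

/-!
# MP_6205a3_nt : resultants and discriminants of integer polynomials are at least one
-/

open Finset Polynomial

set_option autoImplicit false

namespace IntCheb

/-- The complex roots of an integer polynomial as a family. -/
theorem exists_roots (f : ℤ[X]) : ∃ α : Fin f.natDegree → ℂ,
    f.map (Int.castRingHom ℂ) = C (f.leadingCoeff : ℂ) * ∏ t, (X - C (α t)) := by
  classical
  set F := f.map (Int.castRingHom ℂ) with hF
  have hdeg : F.natDegree = f.natDegree :=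
    natDegree_map_eq_of_injective (RingHom.injective_int _) f
  have hlead : F.leadingCoeff = (f.leadingCoeff : ℂ) := by
    rw [hF, leadingCoeff_map_of_injective (RingHom.injective_int _)]; simp
  have hs : F.Splits := IsAlgClosed.splits F
  have hcard : F.roots.toList.length = f.natDegree := by
    rw [Multiset.length_toList, ← hdeg, hs.natDegree_eq_card_roots]
  refine ⟨fun t => F.roots.toList.get (Fin.cast hcard.symm t), ?_⟩
  have h1 : ∏ t : Fin f.natDegree, (X - C (F.roots.toList.get (Fin.cast hcard.symm t))) =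
      (F.roots.map fun a => X - C a).prod := by
    conv_rhs => rw [← F.roots.coe_toList, Multiset.map_coe, Multiset.prod_coe]
    rw [← Fin.prod_univ_fun_getElem F.roots.toList (fun a => X - C a)]
    exact Fintype.prod_equiv (finCongr hcard.symm) _ _ fun t => rfl
  rw [h1, ← hlead]
  exact hs.eq_prod_roots

variable {f g : ℤ[X]}

/-- Resultant of integer polynomials in terms of a family of roots. -/
lemma resultant_eq {k : ℕ} (α : Fin k → ℂ) (f g : ℤ[X])
    (hf : f.map (Int.castRingHom ℂ) = C (f.leadingCoeff : ℂ) * ∏ t, (X - C (α t)))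
    (hf0 : f ≠ 0) :
    ((resultant f g : ℤ) : ℂ) = (f.leadingCoeff : ℂ) ^ g.natDegree *
      ∏ t, (g.map (Int.castRingHom ℂ)).eval (α t) := by
  have hinj : Function.Injective (Int.castRingHom ℂ) := RingHom.injective_int _
  have hlead : (f.map (Int.castRingHom ℂ)).leadingCoeff = (f.leadingCoeff : ℂ) := by
    rw [leadingCoeff_map_of_injective hinj]; simp
  have hl0 : (f.leadingCoeff : ℂ) ≠ 0 := by exact_mod_cast leadingCoeff_ne_zero.2 hf0
  have h := resultant_eq_prod_eval (f.map (Int.castRingHom ℂ)) (g.map (Int.castRingHom ℂ))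
    g.natDegree natDegree_map_le (IsAlgClosed.splits _)
  rw [natDegree_map_eq_of_injective hinj f, resultant_map_map, hlead] at h
  have hroots : (f.map (Int.castRingHom ℂ)).roots = (Finset.univ.val.map α) := by
    rw [hf, roots_C_mul _ hl0]
    have : ∏ t, (X - C (α t)) = (((Finset.univ.val.map α)).map fun a => X - C a).prod := by
      rw [Multiset.map_map]; rfl
    rw [this, roots_multiset_prod_X_sub_C]
  rw [hroots, Multiset.map_map] at h
  exact h

/-- Product over pairs of roots for two coprime integer polynomials. -/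
theorem one_le_pair {k l : ℕ} (α : Fin k → ℂ) (β : Fin l → ℂ) (f g : ℤ[X]) (_hk : f.natDegree = k)
    (hl : g.natDegree = l)
    (hf : f.map (Int.castRingHom ℂ) = C (f.leadingCoeff : ℂ) * ∏ t, (X - C (α t)))
    (hg : g.map (Int.castRingHom ℂ) = C (g.leadingCoeff : ℂ) * ∏ t, (X - C (β t)))
    (hf0 : f ≠ 0) (hres : resultant f g ≠ 0) :
    1 ≤ |(f.leadingCoeff : ℝ)| ^ l * |(g.leadingCoeff : ℝ)| ^ k * ∏ s, ∏ t, ‖α s - β t‖ := by
  have h := resultant_eq α f g hf hf0
  have h1 : (1 : ℝ) ≤ ‖((resultant f g : ℤ) : ℂ)‖ := by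
    rw [Complex.norm_intCast]
    exact_mod_cast Int.one_le_abs hres
  rw [h, norm_mul, norm_pow, norm_prod, Complex.norm_intCast, hl] at h1
  have h2 : ∏ t, ‖(g.map (Int.castRingHom ℂ)).eval (α t)‖ =
      |(g.leadingCoeff : ℝ)| ^ k * ∏ s, ∏ t, ‖α s - β t‖ := by
    have h3 : ∀ s, ‖(g.map (Int.castRingHom ℂ)).eval (α s)‖ =
        |(g.leadingCoeff : ℝ)| * ∏ t, ‖α s - β t‖ := by
      intro s
      rw [hg, eval_mul, eval_C, eval_prod, norm_mul, Complex.norm_intCast, norm_prod]
      simp
    rw [Finset.prod_congr rfl fun s _ => h3 s, Finset.prod_mul_distrib, Finset.prod_const,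
      Finset.card_univ, Fintype.card_fin]
  rw [h2, ← mul_assoc] at h1
  exact h1

/-- Product over pairs of distinct roots for a separable integer polynomial. -/
theorem one_le_self {k : ℕ} (α : Fin k → ℂ) (f : ℤ[X]) (hk : f.natDegree = k)
    (hf : f.map (Int.castRingHom ℂ) = C (f.leadingCoeff : ℂ) * ∏ t, (X - C (α t)))
    (hf0 : f ≠ 0) (hres : resultant f (derivative f) ≠ 0) :
    1 ≤ |(f.leadingCoeff : ℝ)| ^ (2 * k) * ∏ s, ∏ t ∈ Finset.univ.erase s, ‖α s - α t‖ := by
  have h := resultant_eq α f (derivative f) hf hf0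
  have h1 : (1 : ℝ) ≤ ‖((resultant f (derivative f) : ℤ) : ℂ)‖ := by
    rw [Complex.norm_intCast]
    exact_mod_cast Int.one_le_abs hres
  have ha1 : (1 : ℝ) ≤ |(f.leadingCoeff : ℝ)| := by
    exact_mod_cast Int.one_le_abs (leadingCoeff_ne_zero.2 hf0)
  rw [h, norm_mul, norm_pow, norm_prod, Complex.norm_intCast] at h1
  have h2 : ∏ t, ‖((derivative f).map (Int.castRingHom ℂ)).eval (α t)‖ =
      |(f.leadingCoeff : ℝ)| ^ k * ∏ s, ∏ t ∈ Finset.univ.erase s, ‖α s - α t‖ := by
    have h3 : ∀ s, ‖((derivative f).map (Int.castRingHom ℂ)).eval (α s)‖ =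
        |(f.leadingCoeff : ℝ)| * ∏ t ∈ Finset.univ.erase s, ‖α s - α t‖ := by
      intro s
      rw [← derivative_map, hf, derivative_mul, derivative_C, zero_mul, zero_add,
        derivative_prod_finset, eval_mul, eval_C, eval_finsetSum, norm_mul, Complex.norm_intCast]
      congr 1
      rw [Finset.sum_eq_single s]
      · simp only [derivative_sub, derivative_X, derivative_C, sub_zero, mul_one, eval_prod,
          eval_sub, eval_X, eval_C, norm_prod]
      · intro t _ hts
        rw [eval_mul, eval_prod]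
        have : s ∈ Finset.univ.erase t := Finset.mem_erase.2 ⟨hts.symm, Finset.mem_univ _⟩
        rw [Finset.prod_eq_zero this (by simp), zero_mul]
      · intro h'; exact absurd (Finset.mem_univ _) h'
    rw [Finset.prod_congr rfl fun s _ => h3 s, Finset.prod_mul_distrib, Finset.prod_const,
      Finset.card_univ, Fintype.card_fin]
  rw [h2, ← mul_assoc, ← pow_add] at h1
  refine h1.trans ?_
  refine mul_le_mul_of_nonneg_right ?_ (by positivity)
  refine pow_le_pow_right₀ ha1 ?_
  have := natDegree_derivative_le f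
  omega

lemma resultant_ne_zero_of_rat (f g : ℤ[X])
    (h : IsCoprime (f.map (Int.castRingHom ℚ)) (g.map (Int.castRingHom ℚ))) :
    resultant f g ≠ 0 := by
  intro h0
  have h1 := resultant_ne_zero _ _ h
  rw [natDegree_map_eq_of_injective (RingHom.injective_int _) f,
    natDegree_map_eq_of_injective (RingHom.injective_int _) g, resultant_map_map, h0] at h1
  simp at h1

lemma resultant_ne_zero_of_irreducible {f g : ℤ[X]} (hf : Irreducible f) (hg : Irreducible g)
    (hf1 : f.natDegree ≠ 0) (_hg1 : g.natDegree ≠ 0) (hfg : ¬ Associated f g) :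
    resultant f g ≠ 0 := by
  apply resultant_ne_zero_of_rat
  have hfp := hf.isPrimitive hf1

  have hf' := (IsPrimitive.Int.irreducible_iff_irreducible_map_cast hfp).1 hf
  rw [hf'.coprime_iff_not_dvd]
  intro hd
  exact hfg (hf.associated_of_dvd hg ((IsPrimitive.Int.dvd_iff_map_cast_dvd_map_cast f g hfp).2 hd))

lemma resultant_derivative_ne_zero {f : ℤ[X]} (hf : Irreducible f) (hf1 : f.natDegree ≠ 0) :
    resultant f (derivative f) ≠ 0 := by
  apply resultant_ne_zero_of_rat
  have hfp := hf.isPrimitive hf1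
  have hf' := (IsPrimitive.Int.irreducible_iff_irreducible_map_cast hfp).1 hf
  rw [← derivative_map]
  exact hf'.separable

lemma one_le_abs_leadingCoeff {f : ℤ[X]} (hf : f ≠ 0) : (1 : ℝ) ≤ |(f.leadingCoeff : ℝ)| := by
  exact_mod_cast Int.one_le_abs (leadingCoeff_ne_zero.2 hf)

/-- Mutual energy of the roots of two non-associated irreducible polynomials. -/
theorem pair_energy {f g : ℤ[X]} (hf : Irreducible f) (hg : Irreducible g)
    (hf1 : f.natDegree ≠ 0) (hg1 : g.natDegree ≠ 0) (hfg : ¬ Associated f g)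
    (α : Fin f.natDegree → ℂ) (β : Fin g.natDegree → ℂ)
    (hα : f.map (Int.castRingHom ℂ) = C (f.leadingCoeff : ℂ) * ∏ t, (X - C (α t)))
    (hβ : g.map (Int.castRingHom ℂ) = C (g.leadingCoeff : ℂ) * ∏ t, (X - C (β t))) {H : ℝ} :
    -(g.natDegree * Real.log |(f.leadingCoeff : ℝ)| + f.natDegree * Real.log |(g.leadingCoeff : ℝ)|)
      ≤ ∑ s, ∑ t, L H (α s - β t) := by
  have h := one_le_pair α β f g rfl rfl hα hβ hf.ne_zero
    (resultant_ne_zero_of_irreducible hf hg hf1 hg1 hfg)
  have ha := one_le_abs_leadingCoeff hf.ne_zero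
  have hb := one_le_abs_leadingCoeff hg.ne_zero
  have hprod : ∏ s, ∏ t, ‖α s - β t‖ ≠ 0 := by
    intro h0
    rw [h0, mul_zero] at h
    linarith
  have hne : ∀ s t, ‖α s - β t‖ ≠ 0 := by
    intro s t h0
    apply hprod
    exact Finset.prod_eq_zero (Finset.mem_univ s) (Finset.prod_eq_zero (Finset.mem_univ t) h0)
  have h1 := Real.log_nonneg h
  rw [Real.log_mul (by positivity) hprod, Real.log_mul (by positivity) (by positivity),
    Real.log_pow, Real.log_pow, Real.log_prod fun s _ => Finset.prod_ne_zero_iff.2 fun t _ => hne s t]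
    at h1
  have h2 : ∑ s, Real.log (∏ t, ‖α s - β t‖) ≤ ∑ s, ∑ t, L H (α s - β t) := by
    refine Finset.sum_le_sum fun s _ => ?_
    rw [Real.log_prod fun t _ => hne s t]
    exact Finset.sum_le_sum fun t _ => log_norm_le_L (norm_ne_zero_iff.1 (hne s t))
  linarith

/-- Self energy of the roots of an irreducible polynomial. -/
theorem self_energy {f : ℤ[X]} (hf : Irreducible f) (hf1 : f.natDegree ≠ 0)
    (α : Fin f.natDegree → ℂ)
    (hα : f.map (Int.castRingHom ℂ) = C (f.leadingCoeff : ℂ) * ∏ t, (X - C (α t))) {H : ℝ}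
    (hH : 0 < H) :
    -(2 * f.natDegree * Real.log |(f.leadingCoeff : ℝ)|) + f.natDegree * Real.log H
      ≤ ∑ s, ∑ t, L H (α s - α t) := by
  classical
  have h := one_le_self α f rfl hα hf.ne_zero (resultant_derivative_ne_zero hf hf1)
  have ha := one_le_abs_leadingCoeff hf.ne_zero
  have hprod : ∏ s, ∏ t ∈ Finset.univ.erase s, ‖α s - α t‖ ≠ 0 := by
    intro h0
    rw [h0, mul_zero] at h
    linarith
  have hne : ∀ s, ∀ t ∈ Finset.univ.erase s, ‖α s - α t‖ ≠ 0 := by
    intro s t ht h0
    apply hprod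
    exact Finset.prod_eq_zero (Finset.mem_univ s) (Finset.prod_eq_zero ht h0)
  have h1 := Real.log_nonneg h
  rw [Real.log_mul (by positivity) hprod, Real.log_pow,
    Real.log_prod fun s _ => Finset.prod_ne_zero_iff.2 (hne s)] at h1
  have h2 : ∑ s, Real.log (∏ t ∈ Finset.univ.erase s, ‖α s - α t‖) ≤
      ∑ s, ((∑ t, L H (α s - α t)) - Real.log H) := by
    refine Finset.sum_le_sum fun s _ => ?_
    rw [Real.log_prod (hne s)]
    have h3 : ∑ t, L H (α s - α t) = L H (α s - α s) + ∑ t ∈ Finset.univ.erase s, L H (α s - α t) :=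
      (Finset.add_sum_erase _ _ (Finset.mem_univ s)).symm
    rw [h3, sub_self, L_zero hH, add_sub_cancel_left]
    exact Finset.sum_le_sum fun t ht => log_norm_le_L (norm_ne_zero_iff.1 (hne s t ht))
  rw [Finset.sum_sub_distrib, Finset.sum_const, Finset.card_univ, Fintype.card_fin,
    nsmul_eq_mul] at h2
  push_cast at h1
  linarith

end IntCheb
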