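import Pool.Agent.Lib.MP_6205a3_nt.Main

/-!
# MP_6205a3_nt : the integer Chebyshev numbers and the integer transfinite diameter
-/

open Finset Polynomial Filter Topology

set_option autoImplicit false

namespace IntCheb

/-- The maximum of `|P|` on the interval `[a, b]`. -/
noncomputable def supNorm (a b : ℝ) (P : ℤ[X]) : ℝ :=
  sSup ((fun x : ℝ => |aeval x P|) '' Set.Icc a b)

/-- `m_n([a, b])`: the smallest maximum on `[a, b]` of a nonzero integer polynomial of degree at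
most `n`. -/
noncomputable def chebMin (a b : ℝ) (n : ℕ) : ℝ :=
  sInf {t : ℝ | ∃ P : ℤ[X], P ≠ 0 ∧ P.natDegree ≤ n ∧ supNorm a b P = t}

variable {a b : ℝ}

lemma bddAbove_image (a b : ℝ) (P : ℤ[X]) :
    BddAbove ((fun x : ℝ => |aeval x P|) '' Set.Icc a b) :=
  (isCompact_Icc.image (P.continuous_aeval.abs)).bddAbove

lemma le_supNorm (P : ℤ[X]) {x : ℝ} (hx : x ∈ Set.Icc a b) : |aeval x P| ≤ supNorm a b P :=
  le_csSup (bddAbove_image a b P) ⟨x, hx, rfl⟩

lemma supNorm_le (hab : a < b) (P : ℤ[X]) {B : ℝ} (h : ∀ x ∈ Set.Icc a b, |aeval x P| ≤ B) :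
    supNorm a b P ≤ B := by
  refine csSup_le ⟨_, a, ⟨le_rfl, hab.le⟩, rfl⟩ ?_
  rintro _ ⟨x, hx, rfl⟩
  exact h x hx

lemma supNorm_nonneg (hab : a < b) (P : ℤ[X]) : 0 ≤ supNorm a b P :=
  (abs_nonneg _).trans (le_supNorm P (x := a) ⟨le_rfl, hab.le⟩)

lemma supNorm_pos (hab : a < b) {P : ℤ[X]} (hP : P ≠ 0) : 0 < supNorm a b P := by
  by_contra hcon
  have h0 : ∀ x ∈ Set.Icc a b, aeval x P = 0 := by
    intro x hx
    have := le_supNorm P hx
    exact abs_nonpos_iff.1 (by linarith)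
  have h1 : (P.map (Int.castRingHom ℝ)) = 0 := by
    refine Polynomial.eq_zero_of_infinite_isRoot _ ?_
    refine (Set.Icc_infinite hab).mono fun x hx => ?_
    have := h0 x hx
    rw [Set.mem_ofPred_eq, IsRoot.def, eval_map]
    simpa [aeval_def] using this
  exact hP ((Polynomial.map_injective _ (RingHom.injective_int _)) (by simpa using h1))

lemma chebMin_le (hab : a < b) {P : ℤ[X]} (hP : P ≠ 0) {n : ℕ} (hn : P.natDegree ≤ n) :
    chebMin a b n ≤ supNorm a b P := by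
  refine csInf_le ⟨0, ?_⟩ ⟨P, hP, hn, rfl⟩
  rintro _ ⟨Q, _, _, rfl⟩
  exact supNorm_nonneg hab Q

lemma le_chebMin (a b : ℝ) {n : ℕ} {t : ℝ}
    (h : ∀ P : ℤ[X], P ≠ 0 → P.natDegree ≤ n → t ≤ supNorm a b P) : t ≤ chebMin a b n := by
  refine le_csInf ⟨_, 1, one_ne_zero, by simp, rfl⟩ ?_
  rintro _ ⟨P, hP, hn, rfl⟩
  exact h P hP hn

/-- The key inequality: `m_n ≤ (18/(b-a)) n^(7/2) ‖P‖^(n / deg P)`. -/
theorem chebMin_le_rpow (hab : a < b) (h4 : b - a ≤ 4) {n : ℕ} (hn : 1 ≤ n) (P : ℤ[X])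
    (hN : P.natDegree ≠ 0) :
    chebMin a b n ≤ 18 / (b - a) * (n : ℝ) ^ ((7 : ℝ) / 2) *
      (supNorm a b P) ^ ((n : ℝ) / P.natDegree) := by
  have hP0 : P ≠ 0 := by rintro rfl; exact hN natDegree_zero
  have hB0 := supNorm_pos hab hP0
  have hn0 : (0 : ℝ) < n := by exact_mod_cast hn
  have hn1 : (1 : ℝ) ≤ n := by exact_mod_cast hn
  have hba : 0 < b - a := by linarith
  set r : ℝ := (b - a) / 2 with hr
  have hr0 : 0 < r := by positivity
  set ρ : ℝ := r / (2 * (n : ℝ) ^ 2) with hρ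
  set H : ℝ := r / (2 * (n : ℝ) ^ ((5 : ℝ) / 2)) with hH
  have hρ0 : 0 < ρ := by positivity
  have hH0 : 0 < H := by positivity
  have hpow : (1 : ℝ) ≤ (n : ℝ) ^ ((5 : ℝ) / 2) := Real.one_le_rpow hn1 (by norm_num)
  have hH1 : H ≤ 1 := by
    rw [hH, div_le_one (by positivity)]
    have : r ≤ 2 := by rw [hr]; linarith
    linarith
  have he : 4 * Real.exp (3 / 2) < 18 := by
    have h1 : Real.exp 1 < 2.7182818286 := Real.exp_one_lt_d9
    have h2 : Real.exp (3 / 2) ^ 2 = Real.exp 1 ^ 3 := by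
      rw [← Real.exp_nat_mul, ← Real.exp_nat_mul]; norm_num
    have h3 : Real.exp 1 ^ 3 < 2.7182818286 ^ 3 := by gcongr
    have h4 : Real.exp (3 / 2) ^ 2 < 4.5 ^ 2 := by
      rw [h2]; refine h3.trans ?_; norm_num
    have h5 : Real.exp (3 / 2) < 4.5 := lt_of_pow_lt_pow_left₀ 2 (by norm_num) h4
    linarith
  set θ : ℝ := 18 / (4 * Real.exp (3 / 2)) with hθ
  have hθ1 : 1 < θ := by rw [hθ, one_lt_div (by positivity)]; exact he
  obtain ⟨S, hS0, hSn, hS⟩ := key hab P hN hn hH0 hH1 hρ0 hB0 (fun x hx => le_supNorm P hx) hθ1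
  refine (chebMin_le hab hS0 hSn).trans ?_
  refine supNorm_le hab S fun x hx => (hS x hx).trans (le_of_eq ?_)
  have e1 : Real.sqrt (2 * ρ / ((b - a) / 2)) = 1 / n := by
    have : 2 * ρ / ((b - a) / 2) = (1 / (n : ℝ)) ^ 2 := by
      rw [← hr, hρ]; field_simp
    rw [this, Real.sqrt_sq (by positivity)]
  have e2 : H ^ 2 / (2 * ρ ^ 2) = 1 / (2 * n) := by
    have h6 : ((n : ℝ) ^ ((5 : ℝ) / 2)) ^ 2 = (n : ℝ) ^ 5 := by
      rw [← Real.rpow_natCast, ← Real.rpow_mul hn0.le]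
      norm_num
    have h7 : H ^ 2 = r ^ 2 / (4 * (n : ℝ) ^ 5) := by rw [hH, div_pow, mul_pow, h6]; ring
    have h8 : ρ ^ 2 = r ^ 2 / (4 * (n : ℝ) ^ 4) := by rw [hρ, div_pow, mul_pow]; ring
    rw [h7, h8]
    field_simp
  have e3 : (n : ℝ) * (Real.log (supNorm a b P) / P.natDegree +
      (Real.sqrt (2 * ρ / ((b - a) / 2)) + H ^ 2 / (2 * ρ ^ 2))) =
      Real.log (supNorm a b P) * (n / P.natDegree) + 3 / 2 := by
    rw [e1, e2]; field_simp; ring
  rw [e3, Real.exp_add, ← Real.rpow_def_of_pos hB0]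
  have e4 : (n : ℝ) ^ ((7 : ℝ) / 2) = n * (n : ℝ) ^ ((5 : ℝ) / 2) := by
    rw [show (7 : ℝ) / 2 = 1 + 5 / 2 by norm_num, Real.rpow_add hn0, Real.rpow_one]
  rw [e4, hθ, hH, hr]
  field_simp
  ring

lemma one_le_supNorm_of_natDegree_eq_zero (hab : a < b) {P : ℤ[X]} (hP : P ≠ 0)
    (hN : P.natDegree = 0) : 1 ≤ supNorm a b P := by
  obtain ⟨c, rfl⟩ := natDegree_eq_zero.1 hN
  have hc : c ≠ 0 := by rintro rfl; exact hP C_0
  have h1 := le_supNorm (a := a) (b := b) (C c) (x := a) ⟨le_rfl, hab.le⟩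
  rw [aeval_C] at h1
  have h2 : (1 : ℝ) ≤ |((c : ℤ) : ℝ)| := by exact_mod_cast Int.one_le_abs hc
  have h3 : |algebraMap ℤ ℝ c| = |((c : ℤ) : ℝ)| := by simp
  rw [h3] at h1
  linarith

lemma chebMin_one_pos (hab : a < b) : 0 < chebMin a b 1 := by
  have hmin : 0 < min 1 ((b - a) / 2) := lt_min one_pos (by linarith)
  refine hmin.trans_le (le_chebMin a b fun P hP hn => ?_)
  rcases Nat.eq_zero_or_pos P.natDegree with h0 | h0
  · exact (min_le_left _ _).trans (one_le_supNorm_of_natDegree_eq_zero hab hP h0)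
  · refine (min_le_right _ _).trans ?_
    have h1 : P.natDegree = 1 := by omega
    have hlead : P.coeff 1 ≠ 0 := by
      rw [← h1]; exact leadingCoeff_ne_zero.2 hP
    have hev : ∀ x : ℝ, aeval x P = (P.coeff 1 : ℝ) * x + (P.coeff 0 : ℝ) := by
      intro x
      conv_lhs => rw [eq_X_add_C_of_natDegree_le_one hn]
      simp
    have ha := le_supNorm P (a := a) (b := b) (x := a) ⟨le_rfl, hab.le⟩
    have hb := le_supNorm P (a := a) (b := b) (x := b) ⟨hab.le, le_rfl⟩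
    have h2 : |(P.coeff 1 : ℝ)| * (b - a) ≤ 2 * supNorm a b P := by
      have h3 : (P.coeff 1 : ℝ) * (b - a) = aeval b P - aeval a P := by rw [hev, hev]; ring
      have h4 : |(P.coeff 1 : ℝ)| * (b - a) = |aeval b P - aeval a P| := by
        rw [← h3, abs_mul, abs_of_pos (by linarith : 0 < b - a)]
      rw [h4]
      have := abs_sub (aeval b P) (aeval a P)
      linarith
    have h5 : (1 : ℝ) ≤ |(P.coeff 1 : ℝ)| := by exact_mod_cast Int.one_le_abs hlead
    nlinarith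

/-- **Main theorem.** -/
theorem chebMin_bounds (hab : a < b) (h4 : b - a ≤ 4) :
    ∃ τ : ℝ, 0 < τ ∧ Tendsto (fun n : ℕ => chebMin a b n ^ ((1 : ℝ) / n)) atTop (𝓝 τ) ∧
      ∀ n : ℕ, 1 ≤ n → τ ^ n ≤ chebMin a b n ∧
        chebMin a b n ≤ 18 / (b - a) * (n : ℝ) ^ ((7 : ℝ) / 2) * τ ^ n := by
  have hba : 0 < b - a := by linarith
  set A : Set ℝ := insert 1 {t : ℝ | ∃ P : ℤ[X], P.natDegree ≠ 0 ∧
    supNorm a b P ^ ((1 : ℝ) / P.natDegree) = t} with hA
  set τ : ℝ := sInf A with hτ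
  have hA0 : ∀ t ∈ A, 0 ≤ t := by
    rintro t (rfl | ⟨P, _, rfl⟩)
    · exact zero_le_one
    · exact Real.rpow_nonneg (supNorm_nonneg hab P) _
  have hbdd : BddBelow A := ⟨0, fun t ht => hA0 t ht⟩
  have hne : A.Nonempty := ⟨1, Set.mem_insert _ _⟩
  have hτ0 : 0 ≤ τ := le_csInf hne hA0
  have hτ1 : τ ≤ 1 := csInf_le hbdd (Set.mem_insert _ _)
  -- lower bound
  have hlow : ∀ n : ℕ, τ ^ n ≤ chebMin a b n := by
    intro n
    refine le_chebMin a b fun P hP hn => ?_
    rcases Nat.eq_zero_or_pos P.natDegree with h0 | h0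
    · exact (pow_le_one₀ hτ0 hτ1).trans (one_le_supNorm_of_natDegree_eq_zero hab hP h0)
    · have h1 : τ ≤ supNorm a b P ^ ((1 : ℝ) / P.natDegree) :=
        csInf_le hbdd (Set.mem_insert_of_mem _ ⟨P, h0.ne', rfl⟩)
      have h2 : τ ^ P.natDegree ≤ supNorm a b P := by
        calc τ ^ P.natDegree ≤ (supNorm a b P ^ ((1 : ℝ) / P.natDegree)) ^ P.natDegree :=
              pow_le_pow_left₀ hτ0 h1 _
          _ = supNorm a b P := by
              rw [← Real.rpow_natCast, ← Real.rpow_mul (supNorm_nonneg hab P)]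
              have : (1 : ℝ) / P.natDegree * P.natDegree = 1 := by
                field_simp
              rw [this, Real.rpow_one]
      exact (pow_le_pow_of_le_one hτ0 hτ1 hn).trans h2
  -- the constant
  set K : ℕ → ℝ := fun n => 18 / (b - a) * (n : ℝ) ^ ((7 : ℝ) / 2) with hK
  have hK0 : ∀ n : ℕ, 1 ≤ n → 0 < K n := by
    intro n hn
    have : (0 : ℝ) < n := by exact_mod_cast hn
    simp only [hK]; positivity
  have hK1 : ∀ n : ℕ, 1 ≤ n → 1 ≤ K n := by
    intro n hn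
    have hn1 : (1 : ℝ) ≤ n := by exact_mod_cast hn
    have h1 : (1 : ℝ) ≤ (n : ℝ) ^ ((7 : ℝ) / 2) := Real.one_le_rpow hn1 (by norm_num)
    have h2 : (1 : ℝ) ≤ 18 / (b - a) := by rw [one_le_div hba]; linarith
    simp only [hK]
    nlinarith
  have hchebnn : ∀ n, 0 ≤ chebMin a b n := fun n => (pow_nonneg hτ0 n).trans (hlow n)
  have hup : ∀ n : ℕ, 1 ≤ n → chebMin a b n ≤ K n * τ ^ n := by
    intro n hn
    have hn0 : (0 : ℝ) < n := by exact_mod_cast hn
    have h1 : ∀ t ∈ A, chebMin a b n ≤ K n * t ^ n := by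
      rintro t (rfl | ⟨P, hP, rfl⟩)
      · rw [one_pow, mul_one]
        refine (chebMin_le hab one_ne_zero (by simp)).trans ?_
        refine (supNorm_le hab 1 (B := 1) fun x _ => by simp).trans (hK1 n hn)
      · have h2 := chebMin_le_rpow hab h4 hn P hP
        refine h2.trans (le_of_eq ?_)
        rw [← Real.rpow_natCast, ← Real.rpow_mul (supNorm_nonneg hab P)]
        congr 2
        ring
    have h3 : (chebMin a b n / K n) ^ ((1 : ℝ) / n) ≤ τ := by
      refine le_csInf hne fun t ht => ?_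
      have h5 : chebMin a b n / K n ≤ t ^ n := by
        rw [div_le_iff₀ (hK0 n hn), mul_comm]; exact h1 t ht
      calc (chebMin a b n / K n) ^ ((1 : ℝ) / n) ≤ (t ^ n) ^ ((1 : ℝ) / n) :=
            Real.rpow_le_rpow (div_nonneg (hchebnn n) (hK0 n hn).le) h5 (by positivity)
        _ = t := by
            rw [← Real.rpow_natCast, ← Real.rpow_mul (hA0 t ht)]
            have : (n : ℝ) * (1 / n) = 1 := by field_simp
            rw [this, Real.rpow_one]
    have h6 : chebMin a b n / K n ≤ τ ^ n := by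
      calc chebMin a b n / K n = ((chebMin a b n / K n) ^ ((1 : ℝ) / n)) ^ n := by
            rw [← Real.rpow_natCast, ← Real.rpow_mul (div_nonneg (hchebnn n) (hK0 n hn).le)]
            have : (1 : ℝ) / n * n = 1 := by field_simp
            rw [this, Real.rpow_one]
        _ ≤ τ ^ n := pow_le_pow_left₀
            (Real.rpow_nonneg (div_nonneg (hchebnn n) (hK0 n hn).le) _) h3 _
    rw [div_le_iff₀ (hK0 n hn)] at h6
    linarith
  have hτpos : 0 < τ := by
    have h1 := hup 1 le_rfl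
    have h2 := chebMin_one_pos hab
    rw [pow_one] at h1
    have h3 := hK0 1 le_rfl
    by_contra hcon
    have h5 : τ = 0 := le_antisymm (not_lt.1 hcon) hτ0
    rw [h5, mul_zero] at h1
    linarith
  refine ⟨τ, hτpos, ?_, fun n hn => ⟨hlow n, hup n hn⟩⟩
  -- convergence
  have hKlim : Tendsto (fun n : ℕ => K n ^ ((1 : ℝ) / n)) atTop (𝓝 1) := by
    have h1 : Tendsto (fun n : ℕ => (18 / (b - a)) ^ ((1 : ℝ) / n)) atTop (𝓝 1) := by
      have h2 : Tendsto (fun n : ℕ => (1 : ℝ) / n) atTop (𝓝 0) := tendsto_one_div_atTop_nhds_zero_nat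
      have h3 : Tendsto (fun x : ℝ => (18 / (b - a)) ^ x) (𝓝 0) (𝓝 ((18 / (b - a)) ^ (0 : ℝ))) :=
        (Real.continuous_const_rpow (by positivity)).tendsto 0
      rw [Real.rpow_zero] at h3
      exact h3.comp h2
    have h4 : Tendsto (fun n : ℕ => (((n : ℝ) ^ ((1 : ℝ) / n)) ^ ((7 : ℝ) / 2))) atTop (𝓝 1) := by
      have h5 : Tendsto (fun n : ℕ => (n : ℝ) ^ ((1 : ℝ) / n)) atTop (𝓝 1) :=
        tendsto_rpow_div.comp tendsto_natCast_atTop_atTop
      have h6 := h5.rpow_const (p := (7 : ℝ) / 2) (Or.inl one_ne_zero)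
      rwa [Real.one_rpow] at h6
    have h7 := h1.mul h4
    rw [one_mul] at h7
    refine h7.congr' ?_
    filter_upwards [eventually_ge_atTop 1] with n hn
    have hn0 : (0 : ℝ) < n := by exact_mod_cast hn
    simp only [hK]
    rw [Real.mul_rpow (by positivity) (by positivity), ← Real.rpow_mul hn0.le,
      ← Real.rpow_mul hn0.le]
    congr 2
    ring
  have hlim2 := hKlim.mul_const τ
  rw [one_mul] at hlim2
  refine tendsto_of_tendsto_of_tendsto_of_le_of_le' (tendsto_const_nhds (x := τ)) hlim2 ?_ ?_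
  · filter_upwards [eventually_ge_atTop 1] with n hn
    have hn0 : (0 : ℝ) < n := by exact_mod_cast hn
    calc τ = (τ ^ n) ^ ((1 : ℝ) / n) := by
          rw [← Real.rpow_natCast, ← Real.rpow_mul hτ0]
          have : (n : ℝ) * (1 / n) = 1 := by field_simp
          rw [this, Real.rpow_one]
      _ ≤ chebMin a b n ^ ((1 : ℝ) / n) :=
          Real.rpow_le_rpow (pow_nonneg hτ0 n) (hlow n) (by positivity)
  · filter_upwards [eventually_ge_atTop 1] with n hn
    have hn0 : (0 : ℝ) < n := by exact_mod_cast hn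
    calc chebMin a b n ^ ((1 : ℝ) / n) ≤ (K n * τ ^ n) ^ ((1 : ℝ) / n) :=
          Real.rpow_le_rpow (hchebnn n) (hup n hn) (by positivity)
      _ = K n ^ ((1 : ℝ) / n) * τ := by
          rw [Real.mul_rpow (hK0 n hn).le (pow_nonneg hτ0 n), ← Real.rpow_natCast τ n,
            ← Real.rpow_mul hτ0]
          have : (n : ℝ) * (1 / n) = 1 := by field_simp
          rw [this, Real.rpow_one]

end IntCheb
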