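import Mathlib

/-!
# MP_6205a3_nt : factorization of an integer polynomial into irreducibles of positive degree
-/

open Finset Polynomial UniqueFactorizationMonoid

set_option autoImplicit false

namespace IntCheb

theorem exists_factorization (P : ℤ[X]) (hP : P ≠ 0) :
    ∃ (s : Finset ℤ[X]) (e : ℤ[X] → ℕ) (c : ℤ), c ≠ 0 ∧ P = C c * ∏ q ∈ s, q ^ e q ∧
      (∀ q ∈ s, Irreducible q) ∧ (∀ q ∈ s, q.natDegree ≠ 0) ∧
      (∀ q ∈ s, ∀ q' ∈ s, q ≠ q' → ¬ Associated q q') := by
  classical
  set F := normalizedFactors P with hF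
  obtain ⟨u, hu⟩ := prod_normalizedFactors hP
  set F0 := F.filter (fun q => q.natDegree = 0) with hF0
  set F1 := F.filter (fun q => ¬ q.natDegree = 0) with hF1
  have hsplit : F.prod = F0.prod * F1.prod := by
    rw [← Multiset.prod_add, hF0, hF1, Multiset.filter_add_not]
  have hirr : ∀ q ∈ F, Irreducible q := fun q hq => irreducible_of_normalized_factor q hq
  -- the constant part
  have h0 : (F0.prod * (u : ℤ[X])).natDegree = 0 := by
    have h1 : ((F0.prod * (u : ℤ[X]))).natDegree = F0.prod.natDegree + (u : ℤ[X]).natDegree := by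
      refine natDegree_mul ?_ u.ne_zero
      intro h
      have h2 := Multiset.prod_eq_zero_iff.1 h
      have h3 := Multiset.mem_of_mem_filter h2
      exact (hirr 0 h3).ne_zero rfl
    rw [h1, natDegree_coe_units, add_zero, natDegree_multiset_prod]
    · apply Multiset.sum_eq_zero
      intro k hk
      obtain ⟨q, hq, rfl⟩ := Multiset.mem_map.1 hk
      exact (Multiset.mem_filter.1 hq).2
    · intro h
      have h3 := Multiset.mem_of_mem_filter h
      exact (hirr 0 h3).ne_zero rfl
  obtain ⟨c, hc⟩ := natDegree_eq_zero.1 h0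
  have hPe : P = C c * F1.prod := by
    rw [hc, ← hu, hsplit]; ring
  refine ⟨F1.toFinset, fun q => F1.count q, c, ?_, ?_, ?_, ?_, ?_⟩
  · rintro rfl
    apply hP
    rw [hPe, C_0, zero_mul]
  · rw [← Finset.prod_multiset_count]; exact hPe
  · intro q hq
    exact hirr q (Multiset.mem_of_mem_filter (Multiset.mem_toFinset.1 hq))
  · intro q hq
    exact (Multiset.mem_filter.1 (Multiset.mem_toFinset.1 hq)).2
  · intro q hq q' hq' hne hass
    apply hne
    have h1 := normalize_normalized_factor q (Multiset.mem_of_mem_filter (Multiset.mem_toFinset.1 hq))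
    have h2 := normalize_normalized_factor q' (Multiset.mem_of_mem_filter (Multiset.mem_toFinset.1 hq'))
    rw [← h1, ← h2]
    exact normalize_eq_normalize_iff_associated.2 hass

end IntCheb
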