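import Mathlib

/-!
# MP_6205a3_nt : Minkowski's linear forms theorem
-/

open Finset MeasureTheory Module Matrix

set_option autoImplicit false

namespace IntCheb

variable {ι : Type*} [Fintype ι] [DecidableEq ι]

/-- Minkowski's theorem on linear forms. -/
theorem minkowski_forms (A : Matrix ι ι ℝ) (hA : A.det ≠ 0) {κ : ℝ} (hκ : 0 < κ)
    (h : |A.det| < κ ^ Fintype.card ι) :
    ∃ v : ι → ℤ, v ≠ 0 ∧ ∀ i, |∑ j, A i j * (v j : ℝ)| < κ := by
  classical
  set b := Pi.basisFun ℝ ι with hb
  set f : (ι → ℝ) →ₗ[ℝ] (ι → ℝ) := Matrix.toLin' A with hf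
  have hdet : LinearMap.det f = A.det := LinearMap.det_toLin' A
  have hdet0 : LinearMap.det f ≠ 0 := by rw [hdet]; exact hA
  set s : Set (ι → ℝ) := f ⁻¹' Metric.ball 0 κ with hs
  have h_symm : ∀ x ∈ s, -x ∈ s := by
    intro x hx
    rw [hs, Set.mem_preimage, mem_ball_zero_iff] at hx ⊢
    rwa [map_neg, norm_neg]
  have h_conv : Convex ℝ s := (convex_ball 0 κ).linear_preimage f
  have hvol : volume s = ENNReal.ofReal (|A.det|⁻¹ * (2 * κ) ^ Fintype.card ι) := by
    rw [hs, Measure.addHaar_preimage_linearMap volume hdet0, Real.volume_pi_ball _ hκ, hdet,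
      abs_inv, ← ENNReal.ofReal_mul (by positivity)]
  have hF : volume (ZSpan.fundamentalDomain b) = 1 := by
    rw [ZSpan.volume_fundamentalDomain]
    have : (Matrix.of b : Matrix ι ι ℝ) = 1 := by
      ext i j
      simp [hb, Matrix.one_apply, Pi.single_apply, eq_comm]
    rw [this, Matrix.det_one]; simp
  have hfund := ZSpan.isAddFundamentalDomain' b (volume : Measure (ι → ℝ))
  have hlt : volume (ZSpan.fundamentalDomain b) * 2 ^ finrank ℝ (ι → ℝ) < volume s := by
    rw [hF, one_mul, hvol, finrank_fintype_fun_eq_card]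
    have h2 : (2 : ENNReal) ^ Fintype.card ι = ENNReal.ofReal ((2 : ℝ) ^ Fintype.card ι) := by
      rw [ENNReal.ofReal_pow (by norm_num)]; norm_num
    rw [h2]
    refine ENNReal.ofReal_lt_ofReal_iff_of_nonneg (by positivity) |>.2 ?_
    rw [mul_pow]
    have h3 : 0 < |A.det| := abs_pos.2 hA
    have h4 : 1 < |A.det|⁻¹ * κ ^ Fintype.card ι := by
      rw [inv_mul_eq_div, one_lt_div h3]; exact h
    calc (2 : ℝ) ^ Fintype.card ι = 2 ^ Fintype.card ι * 1 := (mul_one _).symm
      _ < 2 ^ Fintype.card ι * (|A.det|⁻¹ * κ ^ Fintype.card ι) := by gcongr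
      _ = _ := by ring
  have : Countable (Submodule.span ℤ (Set.range b)).toAddSubgroup := by
    change Countable (Submodule.span ℤ (Set.range b))
    infer_instance
  obtain ⟨x, hx0, hxs⟩ := exists_ne_zero_mem_lattice_of_measure_mul_two_pow_lt_measure hfund
    h_symm h_conv hlt
  -- integer coordinates
  have hmem : (x : ι → ℝ) ∈ Submodule.span ℤ (Set.range b) := x.2
  rw [Module.Basis.mem_span_iff_repr_mem ℤ b] at hmem
  choose v hv using hmem
  refine ⟨v, ?_, ?_⟩
  · rintro rfl
    apply hx0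
    ext i
    have := hv i
    simpa [hb] using this.symm
  · intro i
    have h1 : ∀ j, (x : ι → ℝ) j = (v j : ℝ) := by
      intro j
      have := hv j
      simpa [hb] using this.symm
    rw [hs, Set.mem_preimage, mem_ball_zero_iff] at hxs
    have h2 := lt_of_le_of_lt (norm_le_pi_norm (f (x : ι → ℝ)) i) hxs
    rw [hf, Matrix.toLin'_apply, Matrix.mulVec, dotProduct, Real.norm_eq_abs] at h2
    simpa only [h1] using h2

end IntCheb
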