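import Pool.Agent.Lib.MP_6205a3_nt.Kernel2
import Pool.Agent.Lib.MP_6205a3_nt.Mink

/-!
# MP_6205a3_nt : weighted Fekete points and small integer polynomials
-/

open Finset Matrix Polynomial

set_option autoImplicit false

namespace IntCheb

/-- Lagrange interpolation with Vandermonde determinants. -/
lemma vandermonde_interp {M : ℕ} (x : Fin M → ℝ) (v : Fin M → ℝ) (y : ℝ) :
    (vandermonde x).det * (∑ j : Fin M, v j * y ^ (j : ℕ)) =
      ∑ i, (vandermonde (Function.update x i y)).det * ∑ j : Fin M, v j * x i ^ (j : ℕ) := by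
  set p : Fin M → ℝ := fun j => y ^ (j : ℕ) with hp
  have h := mulVec_cramer (vandermonde x)ᵀ p
  rw [det_transpose] at h
  have hc : ∀ i, cramer (vandermonde x)ᵀ p i = (vandermonde (Function.update x i y)).det := by
    intro i
    rw [cramer_transpose_apply]
    congr 1
    ext a j
    by_cases hai : a = i
    · subst hai; simp [vandermonde_apply, hp]
    · simp [vandermonde_apply, Matrix.updateRow_ne hai, Function.update_of_ne hai]
  have h2 := congrArg (fun w => w ⬝ᵥ v) h
  simp only [smul_dotProduct, smul_eq_mul] at h2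
  have h3 : p ⬝ᵥ v = ∑ j : Fin M, v j * y ^ (j : ℕ) := by
    simp only [dotProduct, hp]; exact Finset.sum_congr rfl fun j _ => mul_comm _ _
  rw [h3] at h2
  rw [← h2, Matrix.mulVec_transpose, ← Matrix.dotProduct_mulVec]
  simp only [dotProduct, hc]
  refine Finset.sum_congr rfl fun i _ => ?_
  congr 1
  simp only [Matrix.mulVec, dotProduct, vandermonde_apply]
  exact Finset.sum_congr rfl fun j _ => mul_comm _ _

/-- Small integer polynomials from weighted Fekete points. -/
theorem fekete {M : ℕ} {a b : ℝ} (hab : a < b) (W : ℝ → ℝ) (hW : Continuous W) :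
    ∃ x : Fin M → ℝ, (∀ i, x i ∈ Set.Icc a b) ∧ Function.Injective x ∧
      ∀ κ : ℝ, 0 < κ → |(vandermonde x).det| * Real.exp (-∑ i, W (x i)) < κ ^ M →
        ∃ v : Fin M → ℤ, v ≠ 0 ∧ ∀ y ∈ Set.Icc a b,
          |∑ j : Fin M, (v j : ℝ) * y ^ (j : ℕ)| ≤ M * κ * Real.exp (W y) := by
  classical
  set Φ : (Fin M → ℝ) → ℝ := fun x => |(vandermonde x).det| * Real.exp (-∑ i, W (x i)) with hΦ
  have hΦc : Continuous Φ := by
    refine Continuous.mul ?_ ?_
    · refine Continuous.abs ?_
      simp_rw [det_vandermonde]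
      fun_prop
    · refine Real.continuous_exp.comp ?_
      refine Continuous.neg ?_
      exact continuous_finsetSum _ fun i _ => hW.comp (continuous_apply i)
  set K : Set (Fin M → ℝ) := Set.pi Set.univ fun _ => Set.Icc a b with hK
  have hKc : IsCompact K := isCompact_univ_pi fun _ => isCompact_Icc
  have hKne : K.Nonempty := ⟨fun _ => a, fun _ _ => ⟨le_rfl, hab.le⟩⟩
  obtain ⟨x, hxK, hmax⟩ := hKc.exists_isMaxOn hKne hΦc.continuousOn
  have hxI : ∀ i, x i ∈ Set.Icc a b := fun i => hxK i (Set.mem_univ i)
  -- positivity of the maximum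
  have hpos : 0 < Φ x := by
    set t : Fin M → ℝ := fun i => a + (b - a) * ((i : ℕ) : ℝ) / M with ht
    have htK : t ∈ K := by
      intro i _
      have hM : (0 : ℝ) < M := by
        have := i.pos; exact_mod_cast this
      have h1 : (0 : ℝ) ≤ (b - a) * ((i : ℕ) : ℝ) / M := by
        have : 0 ≤ b - a := by linarith
        positivity
      have h2 : (b - a) * ((i : ℕ) : ℝ) / M ≤ b - a := by
        rw [div_le_iff₀ hM]
        have : ((i : ℕ) : ℝ) ≤ M := by exact_mod_cast i.2.le
        nlinarith
      exact ⟨by simp only [ht]; linarith, by simp only [ht]; linarith⟩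
    have htinj : Function.Injective t := by
      intro i j hij
      have hM : (0 : ℝ) < M := by
        have := i.pos; exact_mod_cast this
      simp only [ht] at hij
      have h3 : (b - a) * ((i : ℕ) : ℝ) / M = (b - a) * ((j : ℕ) : ℝ) / M := by linarith
      rw [div_left_inj' hM.ne'] at h3
      have h4 := mul_left_cancel₀ (by linarith : b - a ≠ 0) h3
      exact Fin.ext (by exact_mod_cast h4)
    have h1 : 0 < Φ t := by
      have := det_vandermonde_ne_zero_iff.2 htinj
      simp only [hΦ]
      positivity
    exact h1.trans_le (hmax htK)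
  have hdet0 : (vandermonde x).det ≠ 0 := by
    intro h
    simp only [hΦ, h, abs_zero, zero_mul, lt_irrefl] at hpos
  refine ⟨x, hxI, det_vandermonde_ne_zero_iff.1 hdet0, fun κ hκ hlt => ?_⟩
  -- Minkowski
  set A : Matrix (Fin M) (Fin M) ℝ := Matrix.of fun i j => Real.exp (-W (x i)) * vandermonde x i j
    with hA
  have hAdet : A.det = Real.exp (-∑ i, W (x i)) * (vandermonde x).det := by
    rw [hA, det_mul_column, ← Real.exp_sum, Finset.sum_neg_distrib]
  have hA0 : A.det ≠ 0 := by rw [hAdet]; exact mul_ne_zero (Real.exp_pos _).ne' hdet0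
  have hAabs : |A.det| = Φ x := by
    rw [hAdet, abs_mul, abs_of_pos (Real.exp_pos _), mul_comm]
  obtain ⟨v, hv0, hv⟩ := minkowski_forms A hA0 hκ (by rw [hAabs, Fintype.card_fin]; exact hlt)
  refine ⟨v, hv0, fun y hy => ?_⟩
  set R : ℝ → ℝ := fun y => ∑ j : Fin M, (v j : ℝ) * y ^ (j : ℕ) with hR
  have hRx : ∀ i, |R (x i)| * Real.exp (-W (x i)) ≤ κ := by
    intro i
    have h1 := (hv i).le
    have h2 : ∑ j, A i j * (v j : ℝ) = Real.exp (-W (x i)) * R (x i) := by
      simp only [hA, hR, Matrix.of_apply, vandermonde_apply, Finset.mul_sum]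
      exact Finset.sum_congr rfl fun j _ => by ring
    rw [h2, abs_mul, abs_of_pos (Real.exp_pos _)] at h1
    rw [mul_comm]; exact h1
  have hint := vandermonde_interp x (fun j => (v j : ℝ)) y
  have hup : ∀ i, Function.update x i y ∈ K := by
    intro i j _
    by_cases hji : j = i
    · subst hji; simpa using hy
    · rw [Function.update_of_ne hji]; exact hxI j
  have hΦup : ∀ i, |(vandermonde (Function.update x i y)).det| *
      Real.exp (-W y - (∑ i, W (x i)) + W (x i)) = Φ (Function.update x i y) := by
    intro i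
    simp only [hΦ]
    congr 2
    have h5 : ∑ j, W (Function.update x i y j) = W y + ∑ j ∈ Finset.univ.erase i, W (x j) := by
      rw [← Finset.add_sum_erase _ _ (Finset.mem_univ i), Function.update_self]
      congr 1
      exact Finset.sum_congr rfl fun j hj => by rw [Function.update_of_ne (Finset.ne_of_mem_erase hj)]
    have h6 : ∑ j, W (x j) = W (x i) + ∑ j ∈ Finset.univ.erase i, W (x j) :=
      (Finset.add_sum_erase _ _ (Finset.mem_univ i)).symm
    rw [h5, h6]; ring
  have key : |R y| * Real.exp (-W y) * Φ x ≤ (M * κ) * Φ x := by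
    have h7 : |(vandermonde x).det| * |R y| ≤
        ∑ i, |(vandermonde (Function.update x i y)).det| * |R (x i)| := by
      have h8 : (vandermonde x).det * R y =
          ∑ i, (vandermonde (Function.update x i y)).det * R (x i) := hint
      rw [← abs_mul, h8]
      refine (Finset.abs_sum_le_sum_abs _ _).trans (le_of_eq ?_)
      exact Finset.sum_congr rfl fun i _ => abs_mul _ _
    set E : ℝ := Real.exp (-W y - ∑ i, W (x i)) with hE
    have hEpos : 0 < E := Real.exp_pos _
    calc |R y| * Real.exp (-W y) * Φ x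
        = E * (|(vandermonde x).det| * |R y|) := by
          simp only [hΦ, hE]
          rw [sub_eq_add_neg, Real.exp_add]; ring
      _ ≤ E * ∑ i, |(vandermonde (Function.update x i y)).det| * |R (x i)| :=
          mul_le_mul_of_nonneg_left h7 hEpos.le
      _ = ∑ i, (|R (x i)| * Real.exp (-W (x i))) * Φ (Function.update x i y) := by
          rw [Finset.mul_sum]
          refine Finset.sum_congr rfl fun i _ => ?_
          rw [← hΦup i]
          have h9 : Real.exp (-W (x i)) * Real.exp (-W y - (∑ i, W (x i)) + W (x i)) = E := by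
            rw [← Real.exp_add, hE]; congr 1; ring
          calc E * (|(vandermonde (Function.update x i y)).det| * |R (x i)|)
              = (Real.exp (-W (x i)) * Real.exp (-W y - (∑ i, W (x i)) + W (x i))) *
                (|(vandermonde (Function.update x i y)).det| * |R (x i)|) := by rw [h9]
            _ = _ := by ring
      _ ≤ ∑ _i : Fin M, κ * Φ x := by
          refine Finset.sum_le_sum fun i _ => ?_
          exact mul_le_mul (hRx i) (hmax (hup i)) (by simp only [hΦ]; positivity) hκ.le
      _ = (M * κ) * Φ x := by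
          rw [Finset.sum_const, Finset.card_univ, Fintype.card_fin, nsmul_eq_mul]; ring
  have h10 := le_of_mul_le_mul_right key hpos
  have h11 : |R y| = |R y| * Real.exp (-W y) * Real.exp (W y) := by
    rw [mul_assoc, ← Real.exp_add]; simp
  show |R y| ≤ _
  rw [h11]
  exact mul_le_mul_of_nonneg_right h10 (Real.exp_pos _).le

/-- The logarithmic energy of distinct real points against the regularized kernel. -/
theorem log_det_le {M : ℕ} (x : Fin M → ℝ) (hx : Function.Injective x) {H : ℝ} (hH : 0 < H) :
    2 * Real.log |(vandermonde x).det| ≤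
      (∑ i, ∑ j, L H ((x i : ℂ) - x j)) - M * Real.log H := by
  classical
  have hsq : |(vandermonde x).det| ^ 2 = ∏ i, ∏ j ∈ ({i}ᶜ : Finset (Fin M)), |x j - x i| := by
    rw [← Finset.prod_prod_Ioi_mul_eq_prod_prod_off_diag (fun i j => |x i - x j|)]
    rw [det_vandermonde, Finset.abs_prod, ← Finset.prod_pow]
    refine Finset.prod_congr rfl fun i _ => ?_
    rw [Finset.abs_prod, ← Finset.prod_pow]
    refine Finset.prod_congr rfl fun j _ => ?_
    rw [sq, abs_sub_comm (x i) (x j)]
  have hne : ∀ i, ∀ j ∈ ({i}ᶜ : Finset (Fin M)), |x j - x i| ≠ 0 := by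
    intro i j hj
    rw [Finset.mem_compl, Finset.mem_singleton] at hj
    exact abs_ne_zero.2 (sub_ne_zero.2 fun h => hj (hx h))
  have h1 : 2 * Real.log |(vandermonde x).det| = ∑ i, ∑ j ∈ ({i}ᶜ : Finset (Fin M)),
      Real.log |x j - x i| := by
    have : 2 * Real.log |(vandermonde x).det| = Real.log (|(vandermonde x).det| ^ 2) := by
      rw [Real.log_pow]; push_cast; ring
    rw [this, hsq, Real.log_prod fun i _ => Finset.prod_ne_zero_iff.2 (hne i)]
    exact Finset.sum_congr rfl fun i _ => Real.log_prod (hne i)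
  rw [h1]
  have h2 : ∀ i, ∑ j ∈ ({i}ᶜ : Finset (Fin M)), Real.log |x j - x i| ≤
      (∑ j, L H ((x i : ℂ) - x j)) - Real.log H := by
    intro i
    have h3 : ∑ j, L H ((x i : ℂ) - x j) = L H ((x i : ℂ) - x i) +
        ∑ j ∈ ({i}ᶜ : Finset (Fin M)), L H ((x i : ℂ) - x j) := by
      rw [← Finset.sum_add_sum_compl ({i} : Finset (Fin M)), Finset.sum_singleton]
    rw [h3, sub_self, L_zero hH, add_sub_cancel_left]
    refine Finset.sum_le_sum fun j hj => ?_
    have h4 : (x i : ℂ) - x j ≠ 0 := by
      have := hne i j hj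
      intro h
      apply this
      have h5 : x i - x j = 0 := by exact_mod_cast h
      rw [abs_sub_comm, h5, abs_zero]
    have h6 := log_norm_le_L (H := H) h4
    have h7 : ‖(x i : ℂ) - x j‖ = |x j - x i| := by
      rw [← Complex.ofReal_sub, Complex.norm_real, Real.norm_eq_abs, abs_sub_comm]
    rwa [h7] at h6
  refine (Finset.sum_le_sum fun i _ => h2 i).trans (le_of_eq ?_)
  rw [Finset.sum_sub_distrib, Finset.sum_const, Finset.card_univ, Fintype.card_fin, nsmul_eq_mul]

end IntCheb
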