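import Mathlib

/-!
# MP_6205a3_nt : the regularized logarithmic kernel is conditionally negative definite
-/

open Finset MeasureTheory Filter Topology

set_option autoImplicit false

namespace IntCheb

variable {ι : Type*} [Fintype ι]

lemma pow_kernel_nonneg (d x y : ι → ℝ) (k : ℕ) :
    0 ≤ ∑ i, ∑ j, d i * d j * (x i * x j + y i * y j) ^ k := by
  have h : ∑ i, ∑ j, d i * d j * (x i * x j + y i * y j) ^ k =
      ∑ l ∈ range (k + 1), (k.choose l : ℝ) * (∑ i, d i * (x i ^ l * y i ^ (k - l))) ^ 2 := by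
    have h1 : ∀ i j, d i * d j * (x i * x j + y i * y j) ^ k =
        ∑ l ∈ range (k + 1), (k.choose l : ℝ) *
          ((d i * (x i ^ l * y i ^ (k - l))) * (d j * (x j ^ l * y j ^ (k - l)))) := by
      intro i j
      rw [add_pow, Finset.mul_sum]
      refine Finset.sum_congr rfl fun l _ => ?_
      rw [mul_pow, mul_pow]; ring
    simp_rw [h1]
    rw [Finset.sum_congr rfl fun i _ => Finset.sum_comm, Finset.sum_comm]
    refine Finset.sum_congr rfl fun l _ => ?_
    simp_rw [← Finset.mul_sum]
    rw [sq, Finset.sum_mul_sum]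
    congr 1
    refine Finset.sum_congr rfl fun i _ => ?_
    rw [Finset.mul_sum]
  rw [h]
  exact Finset.sum_nonneg fun l _ => by positivity

lemma hasSum_exp (t : ℝ) : HasSum (fun n : ℕ => t ^ n / (n.factorial : ℝ)) (Real.exp t) := by
  have := NormedSpace.expSeries_div_hasSum_exp (𝔸 := ℝ) t
  rwa [← Real.exp_eq_exp_ℝ] at this

lemma exp_kernel_nonneg (d x y : ι → ℝ) {s : ℝ} (hs : 0 ≤ s) :
    0 ≤ ∑ i, ∑ j, d i * d j * Real.exp (s * (x i * x j + y i * y j)) := by
  have h : HasSum (fun k : ℕ => ∑ i, ∑ j, d i * d j *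
      ((s * (x i * x j + y i * y j)) ^ k / (k.factorial : ℝ)))
      (∑ i, ∑ j, d i * d j * Real.exp (s * (x i * x j + y i * y j))) :=
    hasSum_sum fun i _ => hasSum_sum fun j _ => (hasSum_exp _).mul_left _
  refine h.nonneg fun k => ?_
  have h1 : ∑ i, ∑ j, d i * d j * ((s * (x i * x j + y i * y j)) ^ k / (k.factorial : ℝ)) =
      (s ^ k / (k.factorial : ℝ)) * ∑ i, ∑ j, d i * d j * (x i * x j + y i * y j) ^ k := by
    rw [Finset.mul_sum]
    refine Finset.sum_congr rfl fun i _ => ?_
    rw [Finset.mul_sum]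
    refine Finset.sum_congr rfl fun j _ => ?_
    rw [mul_pow]; ring
  rw [h1]
  have := pow_kernel_nonneg d x y k
  positivity

lemma normSq_sub_eq (z w : ℂ) : Complex.normSq (z - w) =
    Complex.normSq z + Complex.normSq w - 2 * (z.re * w.re + z.im * w.im) := by
  simp only [Complex.normSq_apply, Complex.sub_re, Complex.sub_im]; ring

lemma gauss_kernel_nonneg (c : ι → ℝ) (z : ι → ℂ) {s : ℝ} (hs : 0 ≤ s) :
    0 ≤ ∑ i, ∑ j, c i * c j * Real.exp (-(s * Complex.normSq (z i - z j))) := by
  have h := exp_kernel_nonneg (fun i => c i * Real.exp (-(s * Complex.normSq (z i))))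
    (fun i => (z i).re) (fun i => (z i).im) (s := 2 * s) (by positivity)
  refine h.trans (le_of_eq ?_)
  refine Finset.sum_congr rfl fun i _ => Finset.sum_congr rfl fun j _ => ?_
  rw [normSq_sub_eq]
  have : Real.exp (-(s * (Complex.normSq (z i) + Complex.normSq (z j) -
      2 * ((z i).re * (z j).re + (z i).im * (z j).im)))) =
      Real.exp (-(s * Complex.normSq (z i))) * Real.exp (-(s * Complex.normSq (z j))) *
      Real.exp (2 * s * ((z i).re * (z j).re + (z i).im * (z j).im)) := by
    rw [← Real.exp_add, ← Real.exp_add]; congr 1; ring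
  rw [this]; ring

lemma inv_kernel_nonneg (c : ι → ℝ) (z : ι → ℂ) {τ : ℝ} (hτ : 0 < τ) :
    0 ≤ ∑ i, ∑ j, c i * c j * (1 / (Complex.normSq (z i - z j) + τ)) := by
  have h1 : ∀ x : ℝ, 0 ≤ x → 1 / (x + τ) = ∫ s in Set.Ioi (0 : ℝ), Real.exp (-(x + τ) * s) := by
    intro x hx
    rw [integral_exp_mul_Ioi (by linarith) 0]
    rw [mul_zero, Real.exp_zero]
    field_simp
  have hint : ∀ x : ℝ, 0 ≤ x → IntegrableOn (fun s => Real.exp (-(x + τ) * s)) (Set.Ioi (0 : ℝ)) :=
    fun x hx => integrableOn_exp_mul_Ioi (by linarith) 0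
  have h2 : ∑ i, ∑ j, c i * c j * (1 / (Complex.normSq (z i - z j) + τ)) =
      ∫ s in Set.Ioi (0 : ℝ), ∑ i, ∑ j, c i * c j *
        Real.exp (-(Complex.normSq (z i - z j) + τ) * s) := by
    rw [integral_finsetSum]
    · refine Finset.sum_congr rfl fun i _ => ?_
      rw [integral_finsetSum]
      · refine Finset.sum_congr rfl fun j _ => ?_
        rw [integral_const_mul, h1 _ (Complex.normSq_nonneg _)]
      · intro j _
        exact (hint _ (Complex.normSq_nonneg _)).const_mul _
    · intro i _
      exact integrable_finsetSum _ fun j _ => (hint _ (Complex.normSq_nonneg _)).const_mul _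
  rw [h2]
  refine setIntegral_nonneg measurableSet_Ioi fun s hs => ?_
  have hs' : (0 : ℝ) ≤ s := le_of_lt hs
  have h3 := gauss_kernel_nonneg c z hs'
  have h4 : ∑ i, ∑ j, c i * c j * Real.exp (-(Complex.normSq (z i - z j) + τ) * s) =
      Real.exp (-(τ * s)) *
        ∑ i, ∑ j, c i * c j * Real.exp (-(s * Complex.normSq (z i - z j))) := by
    rw [Finset.mul_sum]
    refine Finset.sum_congr rfl fun i _ => ?_
    rw [Finset.mul_sum]
    refine Finset.sum_congr rfl fun j _ => ?_
    have : Real.exp (-(Complex.normSq (z i - z j) + τ) * s) =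
        Real.exp (-(τ * s)) * Real.exp (-(s * Complex.normSq (z i - z j))) := by
      rw [← Real.exp_add]; congr 1; ring
    rw [this]; ring
  rw [h4]
  positivity

/-- The kernel `log (|z|² + τ)` is conditionally negative definite. -/
theorem log_kernel_nonpos (c : ι → ℝ) (hc : ∑ i, c i = 0) (z : ι → ℂ) {τ : ℝ} (hτ : 0 < τ) :
    ∑ i, ∑ j, c i * c j * Real.log (Complex.normSq (z i - z j) + τ) ≤ 0 := by
  set f : ℝ → ℝ := fun t => ∑ i, ∑ j, c i * c j * Real.log (Complex.normSq (z i - z j) + t) with hf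
  have hderiv : ∀ t, 0 < t → HasDerivAt f
      (∑ i, ∑ j, c i * c j * (1 / (Complex.normSq (z i - z j) + t))) t := by
    intro t ht
    refine HasDerivAt.fun_sum fun i _ => HasDerivAt.fun_sum fun j _ => ?_
    refine HasDerivAt.const_mul _ ?_
    have h0 : Complex.normSq (z i - z j) + t ≠ 0 := by
      have := Complex.normSq_nonneg (z i - z j); linarith
    have h1 := (hasDerivAt_id t).const_add (Complex.normSq (z i - z j))
    exact h1.log h0
  have hmono : MonotoneOn f (Set.Ioi 0) := by
    refine monotoneOn_of_deriv_nonneg (convex_Ioi 0) ?_ ?_ ?_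
    · intro t ht; exact (hderiv t ht).continuousAt.continuousWithinAt
    · intro t ht
      rw [interior_Ioi] at ht
      exact (hderiv t ht).differentiableAt.differentiableWithinAt
    · intro t ht
      rw [interior_Ioi] at ht
      rw [(hderiv t ht).deriv]
      exact inv_kernel_nonneg c z ht
  have hlim : Tendsto f atTop (𝓝 0) := by
    have h0 : ∑ i, ∑ j, c i * c j * (0 : ℝ) = 0 := by simp
    have h1 : Tendsto (fun t : ℝ => ∑ i, ∑ j, c i * c j *
        Real.log ((Complex.normSq (z i - z j) + t) / t)) atTop (𝓝 (∑ i, ∑ j, c i * c j * (0 : ℝ))) := by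
      refine tendsto_finsetSum _ fun i _ => tendsto_finsetSum _ fun j _ => ?_
      refine Tendsto.const_mul _ ?_
      have h2 : Tendsto (fun t : ℝ => (Complex.normSq (z i - z j) + t) / t) atTop (𝓝 1) := by
        have h3 : Tendsto (fun t : ℝ => Complex.normSq (z i - z j) / t + 1) atTop (𝓝 (0 + 1)) :=
          (tendsto_const_nhds.div_atTop tendsto_id).add_const 1
        rw [zero_add] at h3
        refine h3.congr' ?_
        filter_upwards [eventually_gt_atTop (0 : ℝ)] with t ht
        field_simp
      have h4 := (Real.continuousAt_log one_ne_zero).tendsto.comp h2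
      rwa [Real.log_one] at h4
    rw [h0] at h1
    refine h1.congr' ?_
    filter_upwards [eventually_gt_atTop (0 : ℝ)] with t ht
    have h5 : ∀ i j, c i * c j * Real.log ((Complex.normSq (z i - z j) + t) / t) =
        c i * c j * Real.log (Complex.normSq (z i - z j) + t) - c i * c j * Real.log t := by
      intro i j
      have h0 : Complex.normSq (z i - z j) + t ≠ 0 := by
        have := Complex.normSq_nonneg (z i - z j); linarith
      rw [Real.log_div h0 ht.ne']; ring
    simp_rw [h5, Finset.sum_sub_distrib]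
    have h6 : ∑ i, ∑ j, c i * c j * Real.log t = 0 := by
      simp_rw [mul_assoc, ← Finset.mul_sum, ← Finset.sum_mul, hc, zero_mul]
    rw [h6, sub_zero]
  have hmax : Tendsto (fun t : ℝ => max t τ) atTop atTop :=
    tendsto_atTop_mono (fun t => le_max_left t τ) tendsto_id
  refine ge_of_tendsto' (hlim.comp hmax) fun t => ?_
  exact hmono (Set.mem_Ioi.2 hτ) (Set.mem_Ioi.2 (lt_max_of_lt_right hτ)) (le_max_right t τ)

end IntCheb
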