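import Pool.Agent.Lib.MP_6205a3_nt.Kernel

/-!
# MP_6205a3_nt : the regularized logarithmic kernel
-/

open Finset

set_option autoImplicit false

namespace IntCheb

/-- The regularized logarithmic kernel `log √(|z|² + H²)`. -/
noncomputable def L (H : ℝ) (z : ℂ) : ℝ := Real.log (Complex.normSq z + H ^ 2) / 2

lemma L_pos_arg {H : ℝ} (hH : 0 < H) (z : ℂ) : 0 < Complex.normSq z + H ^ 2 := by
  have := Complex.normSq_nonneg z
  positivity

lemma L_zero {H : ℝ} (_hH : 0 < H) : L H 0 = Real.log H := by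
  unfold L
  rw [map_zero, zero_add, Real.log_pow]; push_cast; ring

lemma L_sub_comm (H : ℝ) (z w : ℂ) : L H (z - w) = L H (w - z) := by
  unfold L
  rw [← Complex.normSq_neg, neg_sub]

lemma log_norm_le_L {H : ℝ} {z : ℂ} (hz : z ≠ 0) : Real.log ‖z‖ ≤ L H z := by
  unfold L
  have h0 : 0 < Complex.normSq z := Complex.normSq_pos.2 hz
  have h1 : Real.log ‖z‖ = Real.log (Complex.normSq z) / 2 := by
    rw [Complex.normSq_eq_norm_sq, Real.log_pow]; push_cast; ring
  rw [h1]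
  have := Real.log_le_log h0 (show Complex.normSq z ≤ Complex.normSq z + H ^ 2 by nlinarith [sq_nonneg H])
  linarith

lemma exp_L {H : ℝ} (hH : 0 < H) (z : ℂ) :
    Real.exp (L H z) = Real.sqrt (Complex.normSq z + H ^ 2) := by
  have h := L_pos_arg hH z
  unfold L
  rw [Real.sqrt_eq_rpow, Real.rpow_def_of_pos h]
  congr 1; ring

lemma norm_le_exp_L {H : ℝ} (hH : 0 < H) (z : ℂ) : ‖z‖ ≤ Real.exp (L H z) := by
  rw [exp_L hH]
  apply Real.le_sqrt_of_sq_le
  rw [Complex.normSq_eq_norm_sq]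
  nlinarith [sq_nonneg H]

lemma L_le {H ρ : ℝ} (hH : 0 < H) (hρ : 0 < ρ) (z : ℂ) :
    L H z ≤ Real.log (max ‖z‖ ρ) + H ^ 2 / (2 * ρ ^ 2) := by
  set A := max ‖z‖ ρ with hA
  have hρA : ρ ≤ A := le_max_right _ _
  have hzA : ‖z‖ ≤ A := le_max_left _ _
  have hA0 : 0 < A := hρ.trans_le hρA
  have h1 : Complex.normSq z + H ^ 2 ≤ A ^ 2 * (1 + H ^ 2 / ρ ^ 2) := by
    rw [Complex.normSq_eq_norm_sq, mul_add, mul_one]
    have e1 : ‖z‖ ^ 2 ≤ A ^ 2 := by gcongr
    have e2 : H ^ 2 ≤ A ^ 2 * (H ^ 2 / ρ ^ 2) := by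
      have : ρ ^ 2 ≤ A ^ 2 := by gcongr
      calc H ^ 2 = ρ ^ 2 * (H ^ 2 / ρ ^ 2) := by field_simp
        _ ≤ A ^ 2 * (H ^ 2 / ρ ^ 2) := by gcongr
    linarith
  have h2 := Real.log_le_log (L_pos_arg hH z) h1
  rw [Real.log_mul (by positivity) (by positivity), Real.log_pow] at h2
  have h3 : Real.log (1 + H ^ 2 / ρ ^ 2) ≤ H ^ 2 / ρ ^ 2 := by
    have := Real.log_le_sub_one_of_pos (show (0 : ℝ) < 1 + H ^ 2 / ρ ^ 2 by positivity)
    linarith
  unfold L
  have h4 : H ^ 2 / (2 * ρ ^ 2) = (H ^ 2 / ρ ^ 2) / 2 := by field_simp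
  rw [h4]
  push_cast at h2
  linarith

lemma continuous_L {H : ℝ} (hH : 0 < H) : Continuous (L H) := by
  unfold L
  refine Continuous.div_const ?_ 2
  refine Continuous.log ?_ fun z => (L_pos_arg hH z).ne'
  exact (Complex.continuous_normSq).add continuous_const

/-- Two-family form of the conditional negative definiteness. -/
theorem cnd {α β : Type*} [Fintype α] [Fintype β] (x : α → ℂ) (y : β → ℂ) (u : α → ℝ) (v : β → ℝ)
    (huv : ∑ a, u a = ∑ b, v b) {H : ℝ} (hH : 0 < H) :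
    ∑ a, ∑ a', u a * u a' * L H (x a - x a') + ∑ b, ∑ b', v b * v b' * L H (y b - y b') ≤
      2 * ∑ a, ∑ b, u a * v b * L H (x a - y b) := by
  have h := log_kernel_nonpos (ι := α ⊕ β) (Sum.elim u (fun b => -v b))
    (by rw [Fintype.sum_sum_type]; simp [huv]) (Sum.elim x y) (τ := H ^ 2) (by positivity)
  simp only [Fintype.sum_sum_type, Sum.elim_inl, Sum.elim_inr, Finset.sum_add_distrib] at h
  have e1 : ∑ a, ∑ b, u a * -v b * Real.log (Complex.normSq (x a - y b) + H ^ 2) =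
      -(2 * ∑ a, ∑ b, u a * v b * L H (x a - y b)) := by
    simp only [L, Finset.mul_sum, ← Finset.sum_neg_distrib]
    refine Finset.sum_congr rfl fun a _ => Finset.sum_congr rfl fun b _ => ?_
    ring
  have e2 : ∑ b, ∑ a, -v b * u a * Real.log (Complex.normSq (y b - x a) + H ^ 2) =
      -(2 * ∑ a, ∑ b, u a * v b * L H (x a - y b)) := by
    rw [Finset.sum_comm]
    simp only [L, Finset.mul_sum, ← Finset.sum_neg_distrib]
    refine Finset.sum_congr rfl fun a _ => Finset.sum_congr rfl fun b _ => ?_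
    rw [← Complex.normSq_neg (y b - x a), neg_sub]
    ring
  have e3 : ∑ a, ∑ a', u a * u a' * Real.log (Complex.normSq (x a - x a') + H ^ 2) =
      2 * ∑ a, ∑ a', u a * u a' * L H (x a - x a') := by
    simp only [L, Finset.mul_sum]
    refine Finset.sum_congr rfl fun a _ => Finset.sum_congr rfl fun b _ => ?_
    ring
  have e4 : ∑ b, ∑ b', -v b * -v b' * Real.log (Complex.normSq (y b - y b') + H ^ 2) =
      2 * ∑ b, ∑ b', v b * v b' * L H (y b - y b') := by
    simp only [L, Finset.mul_sum]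
    refine Finset.sum_congr rfl fun a _ => Finset.sum_congr rfl fun b _ => ?_
    ring
  rw [e1, e2, e3, e4] at h
  linarith

end IntCheb
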