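import Pool.Agent.Lib.MP_6205a3_nt.Pot
import Pool.Agent.Lib.MP_6205a3_nt.Fekete
import Pool.Agent.Lib.MP_6205a3_nt.Factor

/-!
# MP_6205a3_nt : from an integer polynomial of any degree to one of degree at most `n`
-/

open Finset Polynomial Matrix

set_option autoImplicit false

namespace IntCheb

/-- Compression: an integer polynomial of degree `N` with norm `B` gives one of degree at most `n`
with norm at most `θ (n/H) exp (n η) B^(n/N)`. -/
theorem key {a b : ℝ} (hab : a < b) (P : ℤ[X]) (hN : P.natDegree ≠ 0) {n : ℕ} (hn : 1 ≤ n)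
    {H ρ B θ : ℝ} (hH : 0 < H) (hH1 : H ≤ 1) (hρ : 0 < ρ) (hB0 : 0 < B)
    (hB : ∀ x ∈ Set.Icc a b, |aeval x P| ≤ B) (hθ : 1 < θ) :
    ∃ S : ℤ[X], S ≠ 0 ∧ S.natDegree ≤ n ∧ ∀ x ∈ Set.Icc a b, |aeval x S| ≤
      θ * (n / H) * Real.exp (n * (Real.log B / P.natDegree +
        (Real.sqrt (2 * ρ / ((b - a) / 2)) + H ^ 2 / (2 * ρ ^ 2)))) := by
  classical
  have hP0 : P ≠ 0 := by rintro rfl; exact hN natDegree_zero
  obtain ⟨s, e, c, hc, hPe, hirr, hdeg, hass⟩ := exists_factorization P hP0
  have hq0 : ∀ q ∈ s, q ≠ 0 := fun q hq => (hirr q hq).ne_zero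
  set N := P.natDegree with hNdef
  set η : ℝ := Real.sqrt (2 * ρ / ((b - a) / 2)) + H ^ 2 / (2 * ρ ^ 2) with hη
  have hNpos : 0 < N := Nat.pos_of_ne_zero hN
  have hNR : (0 : ℝ) < N := by exact_mod_cast hNpos
  have hnR : (1 : ℝ) ≤ n := by exact_mod_cast hn
  have hNsum : ∑ q ∈ s, e q * q.natDegree = N := by
    rw [hNdef, hPe, natDegree_C_mul hc, natDegree_prod _ _ fun q hq => pow_ne_zero _ (hq0 q hq)]
    exact Finset.sum_congr rfl fun q _ => by rw [natDegree_pow]
  -- division with remainder of the multiplicities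
  set g : ℤ[X] → ℕ := fun q => (n * e q) / N with hg
  set r : ℤ[X] → ℕ := fun q => (n * e q) % N with hr
  have hdiv : ∀ q, N * g q + r q = n * e q := fun q => Nat.div_add_mod _ _
  have hrN : ∀ q, r q < N := fun q => Nat.mod_lt _ hNpos
  set D : ℕ := ∑ q ∈ s, g q * q.natDegree with hD
  have hND : N * D + ∑ q ∈ s, r q * q.natDegree = N * n := by
    rw [hD, Finset.mul_sum, ← Finset.sum_add_distrib]
    have : ∀ q ∈ s, N * (g q * q.natDegree) + r q * q.natDegree = n * (e q * q.natDegree) := by
      intro q _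
      calc N * (g q * q.natDegree) + r q * q.natDegree = (N * g q + r q) * q.natDegree := by ring
        _ = n * (e q * q.natDegree) := by rw [hdiv]; ring
    rw [Finset.sum_congr rfl this, ← Finset.mul_sum, hNsum, mul_comm]
  have hDn : D ≤ n := by
    have : N * D ≤ N * n := by omega
    exact Nat.le_of_mul_le_mul_left this hNpos
  obtain ⟨M, hM⟩ := Nat.exists_eq_add_of_le hDn
  have hrM : ∑ q ∈ s, r q * q.natDegree = N * M := by
    have : N * n = N * D + N * M := by rw [hM]; ring
    omega
  set G : ℤ[X] := ∏ q ∈ s, q ^ g q with hG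
  have hG0 : G ≠ 0 := Finset.prod_ne_zero_iff.2 fun q hq => pow_ne_zero _ (hq0 q hq)
  have hGdeg : G.natDegree = D := by
    rw [hG, natDegree_prod _ _ fun q hq => pow_ne_zero _ (hq0 q hq), hD]
    exact Finset.sum_congr rfl fun q _ => by rw [natDegree_pow]
  -- real weights
  set w : ℤ[X] → ℝ := fun q => (r q : ℝ) / N with hw
  have hw0 : ∀ q, 0 ≤ w q := fun q => by simp only [hw]; positivity
  have hw1 : ∀ q, w q ≤ 1 := by
    intro q
    simp only [hw]
    rw [div_le_one hNR]
    exact_mod_cast (hrN q).le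
  have hwM : ∑ q ∈ s, w q * q.natDegree = M := by
    have h1 : ∑ q ∈ s, w q * (q.natDegree : ℝ) = (∑ q ∈ s, (r q : ℝ) * q.natDegree) / N := by
      rw [Finset.sum_div]; exact Finset.sum_congr rfl fun q _ => by simp only [hw]; ring
    have h2 : ∑ q ∈ s, (r q : ℝ) * q.natDegree = N * M := by exact_mod_cast hrM
    rw [h1, h2]; field_simp
  have hwg : ∀ q, w q + g q = (n / N) * e q := by
    intro q
    have h1 : (N : ℝ) * g q + r q = n * e q := by exact_mod_cast hdiv q
    simp only [hw]
    field_simp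
    linarith
  -- potentials
  set W : ℝ → ℝ := fun y => ∑ q ∈ s, w q * U H q (y : ℂ) with hW
  have hWc : Continuous W :=
    continuous_finsetSum _ fun q _ => (continuous_U hH q).const_mul _
  set Λ : ℝ := ∑ q ∈ s, w q * ell q with hΛ
  have hstar : ∀ x ∈ Set.Icc a b, ∑ q ∈ s, (e q : ℝ) * (ell q + U H q x) ≤ Real.log B + N * η := by
    intro x hx
    have h1 := smooth_le P s e c hc hPe hq0 hab hH hρ hB0 hB hx
    have h2 : ∑ q ∈ s, (e q : ℝ) * q.natDegree = N := by exact_mod_cast hNsum
    rw [h2] at h1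
    exact h1
  have hcomb : ∀ x : ℝ, (Λ + W x) + ∑ q ∈ s, (g q : ℝ) * (ell q + U H q x) =
      (n / N) * ∑ q ∈ s, (e q : ℝ) * (ell q + U H q x) := by
    intro x
    simp only [hΛ, hW]
    rw [← Finset.sum_add_distrib, ← Finset.sum_add_distrib, Finset.mul_sum]
    refine Finset.sum_congr rfl fun q _ => ?_
    have := hwg q
    calc w q * ell q + w q * U H q x + g q * (ell q + U H q x)
        = (w q + g q) * (ell q + U H q x) := by ring
      _ = n / N * (e q * (ell q + U H q x)) := by rw [this]; ring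
  have hupper : ∀ x ∈ Set.Icc a b, (Λ + W x) + ∑ q ∈ s, (g q : ℝ) * (ell q + U H q x) ≤
      n * (Real.log B / N + η) := by
    intro x hx
    rw [hcomb]
    have h1 := mul_le_mul_of_nonneg_left (hstar x hx) (show (0 : ℝ) ≤ n / N by positivity)
    refine h1.trans (le_of_eq ?_)
    field_simp
  have hGx : ∀ x : ℝ, |aeval x G| ≤ Real.exp (∑ q ∈ s, (g q : ℝ) * (ell q + U H q x)) := by
    intro x
    rw [hG, map_prod, Finset.abs_prod, Real.exp_sum]
    refine Finset.prod_le_prod (fun _ _ => abs_nonneg _) fun q hq => ?_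
    rw [map_pow, abs_pow, Real.exp_nat_mul]
    exact pow_le_pow_left₀ (abs_nonneg _) (abs_aeval_le hH (hq0 q hq) x) _
  have hnH : 1 ≤ (n : ℝ) / H := by rw [one_le_div hH]; linarith
  rcases Nat.eq_zero_or_pos M with hM0 | hMpos
  · -- no remainder
    refine ⟨G, hG0, by rw [hGdeg]; exact hDn, fun x hx => ?_⟩
    have hwz : ∀ q ∈ s, w q = 0 := by
      intro q hq
      have h1 : ∑ q ∈ s, r q * q.natDegree = 0 := by rw [hrM, hM0, mul_zero]
      have h2 := (Finset.sum_eq_zero_iff.1 h1) q hq
      rcases Nat.mul_eq_zero.1 h2 with h3 | h3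
      · simp only [hw, h3]; simp
      · exact absurd h3 (hdeg q hq)
    have h3 : Λ + W x = 0 := by
      simp only [hΛ, hW]
      rw [Finset.sum_eq_zero fun q hq => by rw [hwz q hq, zero_mul],
        Finset.sum_eq_zero fun q hq => by rw [hwz q hq, zero_mul], add_zero]
    have h4 := hupper x hx
    rw [h3, zero_add] at h4
    calc |aeval x G| ≤ Real.exp (n * (Real.log B / N + η)) :=
          (hGx x).trans (Real.exp_le_exp.2 h4)
      _ = 1 * Real.exp (n * (Real.log B / N + η)) := (one_mul _).symm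
      _ ≤ θ * (n / H) * Real.exp (n * (Real.log B / N + η)) := by
          refine mul_le_mul_of_nonneg_right ?_ (Real.exp_pos _).le
          nlinarith
  · -- Minkowski
    have hMR : (0 : ℝ) < M := by exact_mod_cast hMpos
    obtain ⟨x, hxI, hxinj, hmink⟩ := fekete (M := M) hab W hWc
    set κ : ℝ := θ * (Real.exp Λ / H) with hκ
    have hκ0 : 0 < κ := by positivity
    -- energy of the Fekete points
    have hcnd := cnd (α := Fin M) (β := Σ q : s, Fin (q : ℤ[X]).natDegree)
      (fun i => (x i : ℂ)) (fun i => rt i.1 i.2) (fun _ => 1) (fun i => w i.1) (by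
        rw [Fintype.sum_sigma]
        simp only [Finset.sum_const, Finset.card_univ, Fintype.card_fin, nsmul_eq_mul, mul_one]
        rw [← hwM, ← Finset.sum_coe_sort s]
        exact Finset.sum_congr rfl fun q _ => mul_comm _ _) hH
    have e1 : ∑ i : Σ q : s, Fin (q : ℤ[X]).natDegree, ∑ j : Σ q : s, Fin (q : ℤ[X]).natDegree,
        w i.1 * w j.1 * L H (rt i.1 i.2 - rt j.1 j.2) =
        ∑ q ∈ s, ∑ q' ∈ s, w q * w q' * En H q q' := by
      rw [Fintype.sum_sigma, ← Finset.sum_coe_sort s]
      refine Finset.sum_congr rfl fun q _ => ?_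
      have h1 : ∀ t : Fin (q : ℤ[X]).natDegree, ∑ j : Σ q : s, Fin (q : ℤ[X]).natDegree,
          w q * w j.1 * L H (rt q t - rt j.1 j.2) =
          ∑ q' : s, ∑ t' : Fin (q' : ℤ[X]).natDegree, w q * w q' * L H (rt q t - rt q' t') := by
        intro t; rw [Fintype.sum_sigma]
      simp only [h1]
      rw [Finset.sum_comm, ← Finset.sum_coe_sort s]
      refine Finset.sum_congr rfl fun q' _ => ?_
      simp only [En, Finset.mul_sum]
    have e2 : ∑ i : Fin M, ∑ j : Σ q : s, Fin (q : ℤ[X]).natDegree,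
        (1 : ℝ) * w j.1 * L H ((x i : ℂ) - rt j.1 j.2) = ∑ i, W (x i) := by
      refine Finset.sum_congr rfl fun i _ => ?_
      rw [Fintype.sum_sigma]
      simp only [hW, U, one_mul]
      rw [← Finset.sum_coe_sort s]
      refine Finset.sum_congr rfl fun q _ => ?_
      rw [Finset.mul_sum]
    rw [e1, e2] at hcnd
    simp only [one_mul] at hcnd
    have hen := energy s w (fun q _ => hw0 q) hirr hdeg hass hH
    rw [hwM] at hen
    have hlogH : Real.log H ≤ 0 := Real.log_nonpos hH.le hH1
    have hw2 : ∑ q ∈ s, w q ^ 2 * (q.natDegree : ℝ) ≤ M := by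
      rw [← hwM]
      refine Finset.sum_le_sum fun q _ => ?_
      refine mul_le_mul_of_nonneg_right ?_ (by positivity)
      nlinarith [hw0 q, hw1 q]
    have hen2 : Real.log H * M ≤ Real.log H * ∑ q ∈ s, w q ^ 2 * (q.natDegree : ℝ) :=
      mul_le_mul_of_nonpos_left hw2 hlogH
    have hld := log_det_le x hxinj hH
    have hdet0 : 0 < |(vandermonde x).det| := abs_pos.2 (det_vandermonde_ne_zero_iff.2 hxinj)
    have hlt : |(vandermonde x).det| * Real.exp (-∑ i, W (x i)) < κ ^ M := by
      have h1 : |(vandermonde x).det| * Real.exp (-∑ i, W (x i)) ≤ (Real.exp Λ / H) ^ M := by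
        have h2 : Real.log |(vandermonde x).det| + (-∑ i, W (x i)) ≤ M * (Λ - Real.log H) := by
          have h3 : -(2 * Λ * M) + Real.log H * M ≤ ∑ q ∈ s, ∑ q' ∈ s, w q * w q' * En H q q' := by
            linarith
          linarith
        have h4 : |(vandermonde x).det| * Real.exp (-∑ i, W (x i)) =
            Real.exp (Real.log |(vandermonde x).det| + (-∑ i, W (x i))) := by
          rw [Real.exp_add, Real.exp_log hdet0]
        have h5 : (Real.exp Λ / H) ^ M = Real.exp (M * (Λ - Real.log H)) := by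
          rw [Real.exp_nat_mul, Real.exp_sub, Real.exp_log hH]
        rw [h4, h5]
        exact Real.exp_le_exp.2 h2
      refine h1.trans_lt ?_
      rw [hκ, mul_pow]
      have h6 : (0 : ℝ) < (Real.exp Λ / H) ^ M := by positivity
      have h7 : 1 < θ ^ M := one_lt_pow₀ hθ hMpos.ne'
      nlinarith
    obtain ⟨v, hv0, hv⟩ := hmink κ hκ0 hlt
    set R : ℤ[X] := ∑ j : Fin M, C (v j) * X ^ (j : ℕ) with hR
    have hRcoeff : ∀ j : Fin M, R.coeff j = v j := by
      intro j
      rw [hR, finsetSum_coeff, Finset.sum_eq_single j]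
      · simp
      · intro i _ hij
        rw [coeff_C_mul, coeff_X_pow, if_neg, mul_zero]
        intro h; exact hij (Fin.ext h.symm)
      · intro h; exact absurd (Finset.mem_univ _) h
    have hR0 : R ≠ 0 := by
      intro h
      apply hv0
      ext j
      have := hRcoeff j
      rw [h, coeff_zero] at this
      simpa using this.symm
    have hRdeg : R.natDegree ≤ M - 1 := by
      rw [hR]
      refine natDegree_sum_le_of_forall_le _ _ fun j _ => ?_
      refine (natDegree_C_mul_X_pow_le _ _).trans ?_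
      have := j.2
      omega
    have hRev : ∀ y : ℝ, aeval y R = ∑ j : Fin M, (v j : ℝ) * y ^ (j : ℕ) := by
      intro y
      rw [hR, map_sum]
      refine Finset.sum_congr rfl fun j _ => ?_
      simp
    refine ⟨R * G, mul_ne_zero hR0 hG0, ?_, fun y hy => ?_⟩
    · refine natDegree_mul_le.trans ?_
      rw [hGdeg]; omega
    · rw [map_mul, abs_mul]
      have h1 := hv y hy
      rw [← hRev y] at h1
      have hMn : (M : ℝ) ≤ n := by exact_mod_cast (by omega : M ≤ n)
      calc |aeval y R| * |aeval y G|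
          ≤ (M * κ * Real.exp (W y)) * Real.exp (∑ q ∈ s, (g q : ℝ) * (ell q + U H q y)) :=
            mul_le_mul h1 (hGx y) (abs_nonneg _) (by positivity)
        _ = θ * (M / H) * Real.exp ((Λ + W y) + ∑ q ∈ s, (g q : ℝ) * (ell q + U H q y)) := by
            rw [Real.exp_add, Real.exp_add, hκ]; ring
        _ ≤ θ * (n / H) * Real.exp (n * (Real.log B / N + η)) := by
            refine mul_le_mul ?_ (Real.exp_le_exp.2 (hupper y hy)) (Real.exp_pos _).le
              (by positivity)
            gcongr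

end IntCheb
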