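import Mathlib

/-!
# MP_6205a3_nt : growth of polynomials near an interval (Bernstein-Walsh and Jensen)
-/

open Finset Complex

set_option autoImplicit false

namespace IntCheb

variable {ι : Type*} [Fintype ι]

/-- Maximum principle on the unit disc. -/
lemma norm_le_of_circle {f : ℂ → ℂ} (hf : Differentiable ℂ f) {B : ℝ}
    (hB : ∀ u : ℂ, ‖u‖ = 1 → ‖f u‖ ≤ B) {z : ℂ} (hz : ‖z‖ ≤ 1) : ‖f z‖ ≤ B := by
  have hU : Bornology.IsBounded (Metric.ball (0 : ℂ) 1) := Metric.isBounded_ball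
  refine Complex.norm_le_of_forall_mem_frontier_norm_le hU hf.diffContOnCl ?_ ?_
  · intro u hu
    rw [frontier_ball (0 : ℂ) one_ne_zero] at hu
    exact hB u (by simpa using hu)
  · rw [closure_ball (0 : ℂ) one_ne_zero]
    simpa using hz

/-- `2 log t ≤ t - 1/t`, in exponential form. -/
lemma le_sinh {x : ℝ} (hx : 0 ≤ x) : 2 * x ≤ Real.exp x - Real.exp (-x) := by
  have h := (Real.self_le_sinh_iff (x := x)).2 hx
  rw [Real.sinh_eq] at h
  linarith

/-- Joukowski coordinate. -/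
lemma exists_joukowski (ζ : ℂ) : ∃ u : ℂ, u ≠ 0 ∧ ‖u‖ ≤ 1 ∧ ζ = (u + u⁻¹) / 2 := by
  obtain ⟨s, hs⟩ := IsAlgClosed.exists_eq_mul_self (ζ ^ 2 - 1)
  have h1 : (ζ + s) * (ζ - s) = 1 := by
    have : (ζ + s) * (ζ - s) = ζ ^ 2 - s * s := by ring
    rw [this, ← hs]; ring
  have hne : ζ + s ≠ 0 := fun h => by rw [h, zero_mul] at h1; exact zero_ne_one h1
  have hne' : ζ - s ≠ 0 := fun h => by rw [h, mul_zero] at h1; exact zero_ne_one h1
  have hinv : (ζ + s)⁻¹ = ζ - s := inv_eq_of_mul_eq_one_right h1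
  have hinv' : (ζ - s)⁻¹ = ζ + s := inv_eq_of_mul_eq_one_left h1
  rcases le_total ‖ζ + s‖ 1 with h | h
  · exact ⟨ζ + s, hne, h, by rw [hinv]; ring⟩
  · refine ⟨ζ - s, hne', ?_, by rw [hinv']; ring⟩
    rw [← hinv, norm_inv]; exact inv_le_one_of_one_le₀ h

lemma joukowski_dist {u ζ : ℂ} (hu : u ≠ 0) (hζ : ζ = (u + u⁻¹) / 2) :
    ‖u‖ + ‖u‖⁻¹ = ‖ζ - 1‖ + ‖ζ + 1‖ := by
  have hn : (0 : ℝ) < ‖u‖ := norm_pos_iff.2 hu
  have e1 : ζ - 1 = (u - 1) ^ 2 / (2 * u) := by rw [hζ]; field_simp; ring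
  have e2 : ζ + 1 = (u + 1) ^ 2 / (2 * u) := by rw [hζ]; field_simp; ring
  rw [e1, e2, norm_div, norm_div, norm_pow, norm_pow, norm_mul, Complex.norm_ofNat]
  have hp := parallelogram_law_with_norm ℝ u 1
  rw [norm_one] at hp
  field_simp
  nlinarith [hp]

/-- Bernstein-Walsh inequality near an interval. -/
theorem walsh (β : ι → ℂ) (m : ι → ℕ) (A : ℂ) {c r B : ℝ} (hr : 0 < r)
    (hB : ∀ x : ℝ, |x - c| ≤ r → ‖A * ∏ i, ((x : ℂ) - β i) ^ m i‖ ≤ B)
    {ρ x : ℝ} (hx : |x - c| ≤ r) {z : ℂ} (hz : ‖z - x‖ ≤ ρ) :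
    ‖A * ∏ i, (z - β i) ^ m i‖ ≤ B * Real.exp ((∑ i, (m i : ℝ)) * Real.sqrt (2 * ρ / r)) := by
  have hB0 : 0 ≤ B := (norm_nonneg _).trans (hB x hx)
  have hρ : 0 ≤ ρ := (norm_nonneg _).trans hz
  have hrc : (r : ℂ) ≠ 0 := by exact_mod_cast hr.ne'
  set N : ℕ := ∑ i, m i with hN
  obtain ⟨u, hu0, hu1, hζ⟩ := exists_joukowski ((z - c) / r)
  set H : ℂ → ℂ := fun u => A * ∏ i, (u * ((c : ℂ) - β i) + r * (u ^ 2 + 1) / 2) ^ m i with hH
  have hHd : Differentiable ℂ H := by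
    refine (differentiable_const A).mul ?_
    refine Differentiable.fun_finsetProd fun i _ => ?_
    fun_prop
  have hfac : ∀ w : ℂ, w ≠ 0 → H w = w ^ N * (A * ∏ i, (((c : ℂ) + r * ((w + w⁻¹) / 2)) - β i) ^ m i) := by
    intro w hw
    have h1 : ∀ i, (w * ((c : ℂ) - β i) + r * (w ^ 2 + 1) / 2) ^ m i =
        w ^ m i * (((c : ℂ) + r * ((w + w⁻¹) / 2)) - β i) ^ m i := by
      intro i
      rw [← mul_pow]
      congr 1
      field_simp
      ring
    simp only [hH]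
    rw [Finset.prod_congr rfl fun i _ => h1 i, Finset.prod_mul_distrib, Finset.prod_pow_eq_pow_sum]
    ring
  have hcirc : ∀ w : ℂ, ‖w‖ = 1 → ‖H w‖ ≤ B := by
    intro w hw
    have hw0 : w ≠ 0 := fun h => by rw [h, norm_zero] at hw; exact zero_ne_one hw
    rw [hfac w hw0, norm_mul, norm_pow, hw, one_pow, one_mul]
    have h2 : (w + w⁻¹) / 2 = ((w.re : ℝ) : ℂ) := by
      have h3 : w⁻¹ = (starRingEnd ℂ) w := by
        rw [Complex.inv_def, Complex.normSq_eq_norm_sq, hw]; simp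
      rw [h3, Complex.add_conj]
      push_cast; ring
    have h4 : (c : ℂ) + r * ((w + w⁻¹) / 2) = ((c + r * w.re : ℝ) : ℂ) := by
      rw [h2]; push_cast; ring
    rw [h4]
    refine hB _ ?_
    have h5 : |w.re| ≤ 1 := by rw [← hw]; exact Complex.abs_re_le_norm w
    have h6 : c + r * w.re - c = r * w.re := by ring
    rw [h6, abs_mul, abs_of_pos hr]
    exact mul_le_of_le_one_right hr.le h5
  have hHu : ‖H u‖ ≤ B := norm_le_of_circle hHd hcirc hu1
  have hun : (0 : ℝ) < ‖u‖ := norm_pos_iff.2 hu0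
  have hzu : (c : ℂ) + r * ((u + u⁻¹) / 2) = z := by
    rw [← hζ]; field_simp; ring
  have hval := hfac u hu0
  rw [hzu] at hval
  have hnorm : ‖A * ∏ i, (z - β i) ^ m i‖ = ‖u‖⁻¹ ^ N * ‖H u‖ := by
    rw [hval, norm_mul (u ^ N), norm_pow, ← mul_assoc, ← mul_pow, inv_mul_cancel₀ hun.ne', one_pow,
      one_mul]
  rw [hnorm]
  -- bound for `‖u‖⁻¹`
  set y : ℝ := -Real.log ‖u‖ with hy
  have hy0 : 0 ≤ y := by
    rw [hy]; have := Real.log_nonpos hun.le hu1; linarith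
  have he : Real.exp y = ‖u‖⁻¹ := by rw [hy, Real.exp_neg, Real.exp_log hun]
  have he' : Real.exp (-y) = ‖u‖ := by rw [hy, neg_neg, Real.exp_log hun]
  have hdist := joukowski_dist hu0 hζ
  have hs : ‖u‖ + ‖u‖⁻¹ ≤ 2 + 2 * ρ / r := by
    rw [hdist]
    set s : ℝ := (x - c) / r with hs
    have hsabs : |s| ≤ 1 := by
      rw [hs, abs_div, abs_of_pos hr, div_le_one hr]; exact hx
    have h7 : ‖(z - c) / r - (s : ℂ)‖ ≤ ρ / r := by
      have : (z - c) / (r : ℂ) - (s : ℂ) = (z - x) / r := by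
        rw [hs]; push_cast; field_simp; ring
      rw [this, norm_div, Complex.norm_real, Real.norm_eq_abs, abs_of_pos hr]
      gcongr
    have h8 : ‖(z - c) / r - 1‖ ≤ ρ / r + (1 - s) := by
      have : (z - c) / (r : ℂ) - 1 = ((z - c) / r - (s : ℂ)) + ((s - 1 : ℝ) : ℂ) := by
        push_cast; ring
      rw [this]
      refine (norm_add_le _ _).trans (add_le_add h7 (le_of_eq ?_))
      rw [Complex.norm_real, Real.norm_eq_abs, abs_of_nonpos (by linarith [(abs_le.1 hsabs).2])]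
      ring
    have h9 : ‖(z - c) / r + 1‖ ≤ ρ / r + (1 + s) := by
      have : (z - c) / (r : ℂ) + 1 = ((z - c) / r - (s : ℂ)) + ((s + 1 : ℝ) : ℂ) := by
        push_cast; ring
      rw [this]
      refine (norm_add_le _ _).trans (add_le_add h7 (le_of_eq ?_))
      rw [Complex.norm_real, Real.norm_eq_abs, abs_of_nonneg (by linarith [(abs_le.1 hsabs).1])]
      ring
    have h10 : 2 + 2 * ρ / r = (ρ / r + (1 - s)) + (ρ / r + (1 + s)) := by ring
    rw [h10]
    exact add_le_add h8 h9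
  have hysq : y ^ 2 ≤ 2 * ρ / r := by
    have h11 := le_sinh (x := y / 2) (by linarith)
    have h12 : (Real.exp (y / 2) - Real.exp (-(y / 2))) ^ 2 = Real.exp y + Real.exp (-y) - 2 := by
      have e1 : Real.exp y = Real.exp (y / 2) ^ 2 := by rw [← Real.exp_nat_mul]; congr 1; push_cast; ring
      have e2 : Real.exp (-y) = Real.exp (-(y / 2)) ^ 2 := by
        rw [← Real.exp_nat_mul]; congr 1; push_cast; ring
      have e3 : Real.exp (y / 2) * Real.exp (-(y / 2)) = 1 := by rw [← Real.exp_add]; simp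
      rw [e1, e2]; nlinarith [e3]
    have h13 : y ^ 2 ≤ (Real.exp (y / 2) - Real.exp (-(y / 2))) ^ 2 := by
      apply pow_le_pow_left₀ hy0
      linarith
    rw [h12, he, he'] at h13
    linarith
  have hyle : y ≤ Real.sqrt (2 * ρ / r) := Real.le_sqrt_of_sq_le hysq
  have hfin : ‖u‖⁻¹ ^ N ≤ Real.exp ((∑ i, (m i : ℝ)) * Real.sqrt (2 * ρ / r)) := by
    rw [← he, ← Real.exp_nat_mul]
    apply Real.exp_le_exp.2
    rw [hN]; push_cast
    exact mul_le_mul_of_nonneg_left hyle (by positivity)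
  calc ‖u‖⁻¹ ^ N * ‖H u‖ ≤ Real.exp ((∑ i, (m i : ℝ)) * Real.sqrt (2 * ρ / r)) * B :=
        mul_le_mul hfin hHu (norm_nonneg _) (Real.exp_pos _).le
    _ = _ := mul_comm _ _

/-- Jensen's inequality together with Bernstein-Walsh. -/
theorem jensen_walsh (β : ι → ℂ) (m : ι → ℕ) (A : ℂ) {c r B : ℝ} (hr : 0 < r)
    (hB : ∀ x : ℝ, |x - c| ≤ r → ‖A * ∏ i, ((x : ℂ) - β i) ^ m i‖ ≤ B)
    {ρ x : ℝ} (hρ : 0 < ρ) (hx : |x - c| ≤ r) :
    ‖A‖ * ∏ i, (max ‖(x : ℂ) - β i‖ ρ) ^ m i ≤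
      B * Real.exp ((∑ i, (m i : ℝ)) * Real.sqrt (2 * ρ / r)) := by
  classical
  set g : ℂ → ℂ := fun u => A * ∏ i, (if ρ ≤ ‖(x : ℂ) - β i‖ then ((x : ℂ) - β i) + ρ * u
    else ρ + (starRingEnd ℂ) ((x : ℂ) - β i) * u) ^ m i with hg
  have hgd : Differentiable ℂ g := by
    refine (differentiable_const A).mul ?_
    refine Differentiable.fun_finsetProd fun i _ => ?_
    refine Differentiable.fun_pow ?_ _
    split_ifs <;> fun_prop
  have hcirc : ∀ u : ℂ, ‖u‖ = 1 →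
      ‖g u‖ ≤ B * Real.exp ((∑ i, (m i : ℝ)) * Real.sqrt (2 * ρ / r)) := by
    intro u hu
    have h1 : ‖g u‖ = ‖A * ∏ i, (((x : ℂ) + ρ * u) - β i) ^ m i‖ := by
      simp only [hg, norm_mul, norm_prod, norm_pow]
      congr 1
      refine Finset.prod_congr rfl fun i _ => ?_
      congr 1
      split_ifs with h
      · congr 1; ring
      · have h2 : (ρ : ℂ) + (starRingEnd ℂ) ((x : ℂ) - β i) * u =
            (starRingEnd ℂ) (((x : ℂ) + ρ * u) - β i) * u := by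
          have h3 : (starRingEnd ℂ) u * u = 1 := by
            rw [mul_comm, Complex.mul_conj, Complex.normSq_eq_norm_sq, hu]; simp
          simp only [map_sub, map_add, map_mul, Complex.conj_ofReal]
          linear_combination (-(ρ : ℂ)) * h3
        rw [h2, norm_mul, hu, mul_one, RCLike.norm_conj]
    rw [h1]
    refine walsh β m A hr hB hx ?_
    have : (x : ℂ) + ρ * u - x = ρ * u := by ring
    rw [this, norm_mul, hu, mul_one, Complex.norm_real, Real.norm_eq_abs, abs_of_pos hρ]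
  have h0 := norm_le_of_circle hgd hcirc (z := 0) (by simp)
  refine le_trans (le_of_eq ?_) h0
  simp only [hg, norm_mul, norm_prod, norm_pow, mul_zero, add_zero]
  congr 1
  refine Finset.prod_congr rfl fun i _ => ?_
  congr 1
  split_ifs with h
  · rw [max_eq_left h]
  · rw [max_eq_right (le_of_lt (not_le.1 h)), Complex.norm_real, Real.norm_eq_abs, abs_of_pos hρ]

end IntCheb
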