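import Pool.Agent.Lib.MP_6205a3_nt.Res
import Pool.Agent.Lib.MP_6205a3_nt.Walsh

/-!
# MP_6205a3_nt : potentials and energies of integer polynomials
-/

open Finset Polynomial

set_option autoImplicit false

namespace IntCheb

/-- the complex roots of `q` -/
noncomputable def rt (q : ℤ[X]) : Fin q.natDegree → ℂ := (exists_roots q).choose

lemma rt_spec (q : ℤ[X]) :
    q.map (Int.castRingHom ℂ) = C (q.leadingCoeff : ℂ) * ∏ t, (X - C (rt q t)) :=
  (exists_roots q).choose_spec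

/-- regularized potential of the roots of `q` -/
noncomputable def U (H : ℝ) (q : ℤ[X]) (x : ℂ) : ℝ := ∑ t, L H (x - rt q t)

/-- logarithm of the leading coefficient -/
noncomputable def ell (q : ℤ[X]) : ℝ := Real.log |(q.leadingCoeff : ℝ)|

/-- mutual energy -/
noncomputable def En (H : ℝ) (p q : ℤ[X]) : ℝ := ∑ s, ∑ t, L H (rt p s - rt q t)

lemma ell_nonneg {q : ℤ[X]} (hq : q ≠ 0) : 0 ≤ ell q := Real.log_nonneg (one_le_abs_leadingCoeff hq)

lemma continuous_U {H : ℝ} (hH : 0 < H) (q : ℤ[X]) : Continuous fun x : ℝ => U H q (x : ℂ) := by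
  unfold U
  refine continuous_finsetSum _ fun t _ => (continuous_L hH).comp ?_
  exact Complex.continuous_ofReal.sub continuous_const

lemma aeval_eq (q : ℤ[X]) (x : ℝ) :
    ((aeval x q : ℝ) : ℂ) = (q.leadingCoeff : ℂ) * ∏ t, ((x : ℂ) - rt q t) := by
  have h1 : ((aeval x q : ℝ) : ℂ) = (q.map (Int.castRingHom ℂ)).eval (x : ℂ) := by
    rw [eval_map, ← Complex.ofRealHom_eq_coe (aeval x q), aeval_def, hom_eval₂]
    congr 1
  rw [h1, rt_spec q, eval_mul, eval_C, eval_prod]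
  simp

lemma abs_aeval_le {H : ℝ} (hH : 0 < H) {q : ℤ[X]} (hq : q ≠ 0) (x : ℝ) :
    |aeval x q| ≤ Real.exp (ell q + U H q x) := by
  have h1 : |aeval x q| = |(q.leadingCoeff : ℝ)| * ∏ t, ‖(x : ℂ) - rt q t‖ := by
    rw [← Real.norm_eq_abs, ← Complex.norm_real, aeval_eq, norm_mul, norm_prod,
      Complex.norm_intCast]
  have h2 : Real.exp (ell q) = |(q.leadingCoeff : ℝ)| :=
    Real.exp_log (by have := one_le_abs_leadingCoeff hq; linarith)
  rw [h1, Real.exp_add, h2, U, Real.exp_sum]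
  refine mul_le_mul_of_nonneg_left ?_ (abs_nonneg _)
  exact Finset.prod_le_prod (fun _ _ => norm_nonneg _) fun t _ => norm_le_exp_L hH _

/-- Energy inequality. -/
theorem energy (s : Finset ℤ[X]) (w : ℤ[X] → ℝ) (hw : ∀ q ∈ s, 0 ≤ w q)
    (hirr : ∀ q ∈ s, Irreducible q) (hdeg : ∀ q ∈ s, q.natDegree ≠ 0)
    (hass : ∀ q ∈ s, ∀ q' ∈ s, q ≠ q' → ¬ Associated q q') {H : ℝ} (hH : 0 < H) :
    -(2 * (∑ q ∈ s, w q * ell q) * ∑ q ∈ s, w q * q.natDegree) +
      Real.log H * ∑ q ∈ s, w q ^ 2 * q.natDegree ≤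
      ∑ q ∈ s, ∑ q' ∈ s, w q * w q' * En H q q' := by
  classical
  have h1 : ∀ q ∈ s, ∀ q' ∈ s, w q * w q' * (-(q'.natDegree * ell q + q.natDegree * ell q')) +
      (if q = q' then w q ^ 2 * (q.natDegree * Real.log H) else 0) ≤ w q * w q' * En H q q' := by
    intro q hq q' hq'
    have hww : 0 ≤ w q * w q' := mul_nonneg (hw q hq) (hw q' hq')
    by_cases h : q = q'
    · subst h
      rw [if_pos rfl]
      have h2 := self_energy (hirr q hq) (hdeg q hq) (rt q) (rt_spec q) hH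
      have h3 := mul_le_mul_of_nonneg_left h2 hww
      refine le_trans (le_of_eq ?_) h3
      unfold ell
      ring
    · rw [if_neg h, add_zero]
      exact mul_le_mul_of_nonneg_left (pair_energy (hirr q hq) (hirr q' hq') (hdeg q hq)
        (hdeg q' hq') (hass q hq q' hq' h) (rt q) (rt q') (rt_spec q) (rt_spec q')) hww
  refine le_trans (le_of_eq ?_) (Finset.sum_le_sum fun q hq => Finset.sum_le_sum fun q' hq' =>
    h1 q hq q' hq')
  simp_rw [Finset.sum_add_distrib]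
  have h4 : ∑ q ∈ s, ∑ q' ∈ s, (if q = q' then w q ^ 2 * (q.natDegree * Real.log H) else 0) =
      Real.log H * ∑ q ∈ s, w q ^ 2 * q.natDegree := by
    rw [Finset.mul_sum]
    refine Finset.sum_congr rfl fun q hq => ?_
    rw [Finset.sum_ite_eq, if_pos hq]; ring
  rw [h4]
  congr 1
  have h5 : ∀ q ∈ s, ∑ q' ∈ s, w q * w q' * (-(q'.natDegree * ell q + q.natDegree * ell q')) =
      -(w q * ell q * ∑ q' ∈ s, w q' * q'.natDegree) -
        w q * q.natDegree * ∑ q' ∈ s, w q' * ell q' := by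
    intro q _
    rw [Finset.mul_sum, Finset.mul_sum, ← Finset.sum_neg_distrib, ← Finset.sum_sub_distrib]
    exact Finset.sum_congr rfl fun q' _ => by ring
  rw [Finset.sum_congr rfl h5, Finset.sum_sub_distrib, Finset.sum_neg_distrib, ← Finset.sum_mul,
    ← Finset.sum_mul]
  ring

/-- The smoothed polynomial is bounded by the norm on the interval. -/
theorem smooth_le (P : ℤ[X]) (s : Finset ℤ[X]) (e : ℤ[X] → ℕ) (c : ℤ) (hc : c ≠ 0)
    (hP : P = C c * ∏ q ∈ s, q ^ e q) (hq0 : ∀ q ∈ s, q ≠ 0) {a b B H ρ : ℝ} (hab : a < b)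
    (hH : 0 < H) (hρ : 0 < ρ) (hB0 : 0 < B) (hB : ∀ x ∈ Set.Icc a b, |aeval x P| ≤ B) {x : ℝ}
    (hx : x ∈ Set.Icc a b) :
    ∑ q ∈ s, (e q : ℝ) * (ell q + U H q x) ≤ Real.log B +
      (∑ q ∈ s, (e q : ℝ) * q.natDegree) * (Real.sqrt (2 * ρ / ((b - a) / 2)) +
        H ^ 2 / (2 * ρ ^ 2)) := by
  classical
  set I := Σ q : s, Fin (q : ℤ[X]).natDegree with hI
  set β : I → ℂ := fun i => rt i.1 i.2 with hβ
  set m : I → ℕ := fun i => e i.1 with hm
  set A : ℂ := (c : ℂ) * ∏ q ∈ s, (q.leadingCoeff : ℂ) ^ e q with hA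
  have hr : 0 < (b - a) / 2 := by linarith
  have hval : ∀ y : ℝ, ((aeval y P : ℝ) : ℂ) = A * ∏ i, ((y : ℂ) - β i) ^ m i := by
    intro y
    have h1 : (aeval y P : ℝ) = (c : ℝ) * ∏ q ∈ s, (aeval y q) ^ e q := by
      rw [hP, map_mul, map_prod]
      simp
    rw [h1]
    push_cast
    have h2 : ∀ q ∈ s, ((aeval y q : ℝ) : ℂ) ^ e q =
        (q.leadingCoeff : ℂ) ^ e q * ∏ t, ((y : ℂ) - rt q t) ^ e q := by
      intro q _
      rw [aeval_eq, mul_pow, Finset.prod_pow]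
    rw [Finset.prod_congr rfl h2, Finset.prod_mul_distrib, hA, mul_assoc]
    congr 2
    rw [Fintype.prod_sigma, ← Finset.prod_coe_sort s]
  have hBB : ∀ y : ℝ, |y - (a + b) / 2| ≤ (b - a) / 2 → ‖A * ∏ i, ((y : ℂ) - β i) ^ m i‖ ≤ B := by
    intro y hy
    rw [← hval, Complex.norm_real, Real.norm_eq_abs]
    refine hB y ?_
    rw [abs_le] at hy
    constructor <;> linarith [hy.1, hy.2]
  have hx' : |x - (a + b) / 2| ≤ (b - a) / 2 := by
    rw [abs_le]; constructor <;> linarith [hx.1, hx.2]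
  have hjw := jensen_walsh β m A hr hBB hρ hx'
  have hsum : ∑ i, (m i : ℝ) = ∑ q ∈ s, (e q : ℝ) * q.natDegree := by
    rw [Fintype.sum_sigma, ← Finset.sum_coe_sort s]
    refine Finset.sum_congr rfl fun q _ => ?_
    simp only [hm, Finset.sum_const, Finset.card_univ, Fintype.card_fin, nsmul_eq_mul]
    ring
  rw [hsum] at hjw
  set Nr : ℝ := ∑ q ∈ s, (e q : ℝ) * q.natDegree with hNr
  -- take logarithms
  have hAnorm : ‖A‖ = |(c : ℝ)| * ∏ q ∈ s, |(q.leadingCoeff : ℝ)| ^ e q := by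
    rw [hA, norm_mul, norm_prod, Complex.norm_intCast]
    congr 1
    exact Finset.prod_congr rfl fun q _ => by rw [norm_pow, Complex.norm_intCast]
  have hlead : ∀ q ∈ s, 1 ≤ |(q.leadingCoeff : ℝ)| := fun q hq => one_le_abs_leadingCoeff (hq0 q hq)
  have hc1 : (1 : ℝ) ≤ |(c : ℝ)| := by exact_mod_cast Int.one_le_abs hc
  have hprodpos : 0 < ∏ q ∈ s, |(q.leadingCoeff : ℝ)| ^ e q :=
    Finset.prod_pos fun q hq => pow_pos (by linarith [hlead q hq]) _
  have hlogA : ∑ q ∈ s, (e q : ℝ) * ell q ≤ Real.log ‖A‖ := by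
    rw [hAnorm, Real.log_mul (by positivity) hprodpos.ne', Real.log_prod fun q hq =>
      (pow_pos (by linarith [hlead q hq]) _).ne']
    have h3 : ∀ q ∈ s, (e q : ℝ) * ell q = Real.log (|(q.leadingCoeff : ℝ)| ^ e q) := by
      intro q _; rw [Real.log_pow]; rfl
    rw [Finset.sum_congr rfl h3]
    have := Real.log_nonneg hc1
    linarith
  have hApos : 0 < ‖A‖ := by rw [hAnorm]; positivity
  have hmaxpos : ∀ i, 0 < max ‖(x : ℂ) - β i‖ ρ := fun i => lt_max_of_lt_right hρ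
  have hlog := Real.log_le_log (mul_pos hApos (Finset.prod_pos fun i _ => pow_pos (hmaxpos i) _)) hjw
  rw [Real.log_mul hApos.ne' (Finset.prod_pos fun i _ => pow_pos (hmaxpos i) _).ne',
    Real.log_mul hB0.ne' (Real.exp_pos _).ne', Real.log_exp,
    Real.log_prod fun i _ => (pow_pos (hmaxpos i) _).ne'] at hlog
  have hU : ∑ q ∈ s, (e q : ℝ) * U H q x ≤
      ∑ i, Real.log (max ‖(x : ℂ) - β i‖ ρ ^ m i) + Nr * (H ^ 2 / (2 * ρ ^ 2)) := by
    have h4 : ∑ q ∈ s, (e q : ℝ) * U H q x = ∑ i : I, (m i : ℝ) * L H ((x : ℂ) - β i) := by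
      rw [Fintype.sum_sigma, ← Finset.sum_coe_sort s]
      refine Finset.sum_congr rfl fun q _ => ?_
      rw [U, Finset.mul_sum]
    rw [h4, ← hsum, Finset.sum_mul, ← Finset.sum_add_distrib]
    refine Finset.sum_le_sum fun i _ => ?_
    rw [Real.log_pow, ← mul_add]
    exact mul_le_mul_of_nonneg_left (L_le hH hρ _) (by positivity)
  have h5 : ∑ q ∈ s, (e q : ℝ) * (ell q + U H q x) =
      ∑ q ∈ s, (e q : ℝ) * ell q + ∑ q ∈ s, (e q : ℝ) * U H q x := by
    rw [← Finset.sum_add_distrib]; exact Finset.sum_congr rfl fun q _ => by ring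
  rw [h5]
  have h6 : Nr * (Real.sqrt (2 * ρ / ((b - a) / 2)) + H ^ 2 / (2 * ρ ^ 2)) =
      Nr * Real.sqrt (2 * ρ / ((b - a) / 2)) + Nr * (H ^ 2 / (2 * ρ ^ 2)) := by ring
  rw [h6]
  linarith

end IntCheb
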